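import Mathlib

/-!
Dynamically affine polynomials over finite fields: the statements of the rows.
-/

set_option autoImplicit false

open Polynomial

namespace Pool.Agent.Lib.MP_02170e_nt.DA

section
variable {F : Type} [Field F]

/-- The level `n` of the tree above `α`. -/
def T (R : F[X]) (α : AlgebraicClosure F) (n : ℕ) : Set (AlgebraicClosure F) :=
  {x | aeval x (R.comp^[n] X) = α}

/-- The largest degree of an irreducible factor of `f (R^(n))`. -/
noncomputable def M (f R : F[X]) (n : ℕ) : ℕ :=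
  sSup {d | ∃ g : F[X], Irreducible g ∧ g ∣ f.comp (R.comp^[n] X) ∧ g.natDegree = d}

/-- `α` is not `R`-critical. -/
def NC (R : F[X]) (α : AlgebraicClosure F) : Prop :=
  ¬ BddAbove (Set.range fun n => (T R α n).ncard)

/-- `L` is an additive polynomial plus a constant. -/
def Aff (L : (AlgebraicClosure F)[X]) : Prop :=
  ∀ x y, L.eval (x + y) + L.eval 0 = L.eval x + L.eval y

/-- Some iterate of `R` is semiconjugate to the affine map `L` of the additive group. -/
def SemiA (R : F[X]) (r : ℕ) (π L : (AlgebraicClosure F)[X]) : Prop :=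
  0 < r ∧ 0 < π.natDegree ∧ Aff L ∧
    ((R.comp^[r] X).map (algebraMap F (AlgebraicClosure F))).comp π = π.comp L

/-- Some iterate of `R` is semiconjugate to the `d`-th power map of the multiplicative group, by
`x ↦ P x / x ^ k`. -/
def SemiM (R : F[X]) (r : ℕ) (P : (AlgebraicClosure F)[X]) (k d : ℕ) : Prop :=
  0 < r ∧ (∃ x y : AlgebraicClosure F, x ≠ 0 ∧ y ≠ 0 ∧ P.eval x / x ^ k ≠ P.eval y / y ^ k) ∧
    ∀ x : AlgebraicClosure F, x ≠ 0 →
      aeval (P.eval x / x ^ k) (R.comp^[r] X) = P.eval (x ^ d) / (x ^ d) ^ k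

end

/-- ROW UP: all points of the levels have small degree. -/
def StUp : Prop := ∀ (F : Type) [Field F] [Finite F] (R f : F[X]) (r : ℕ)
  (π L : (AlgebraicClosure F)[X]), SemiA R r π L → 0 < R.natDegree → f ≠ 0 →
  ∃ C : ℕ, ∀ (n : ℕ) (β : AlgebraicClosure F), aeval β f = 0 → ∀ y ∈ T R β n,
    ∃ N, 0 < N ∧ N ≤ C * (n + 1) ∧ y ^ (Nat.card F ^ N) = y

/-- ROW INJ: if the map above is injective, the levels are bounded. -/
def StInj : Prop := ∀ (F : Type) [Field F] [Finite F] (R : F[X]) (r : ℕ)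
  (X0 : Set (AlgebraicClosure F)) (p S : AlgebraicClosure F → AlgebraicClosure F) (D : ℕ),
  0 < r → 0 < R.natDegree → (∀ x ∈ X0, S x ∈ X0) →
  (∀ x ∈ X0, aeval (p x) (R.comp^[r] X) = p (S x)) →
  (∀ y, {x | x ∈ X0 ∧ p x = y}.Finite ∧ {x | x ∈ X0 ∧ p x = y}.ncard ≤ D) →
  (p '' X0)ᶜ.Finite → Set.InjOn S X0 →
  ∀ α : AlgebraicClosure F, BddAbove (Set.range fun n => (T R α n).ncard)

/-- ROW LOW (uses INJ): the levels grow exponentially. -/
def StLow : Prop := ∀ (F : Type) [Field F] [Finite F] (R : F[X]) (r : ℕ)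
  (π L : (AlgebraicClosure F)[X]), SemiA R r π L → ∀ α : AlgebraicClosure F, NC R α →
  ∃ c : ℝ, 0 < c ∧ ∀ᶠ n : ℕ in Filter.atTop, Real.exp (c * n) ≤ (T R α n).ncard

/-- ROW GM (uses INJ): the multiplicative case. -/
def StGm : Prop := ∀ (F : Type) [Field F] [Finite F] (R f : F[X]) (r : ℕ)
  (P : (AlgebraicClosure F)[X]) (k d : ℕ), SemiM R r P k d → f ≠ 0 →
  ∀ α : AlgebraicClosure F, aeval α f = 0 → NC R α →
  ∃ c : ℝ, 0 < c ∧ ∀ᶠ n : ℕ in Filter.atTop, c * n ≤ Real.log (M f R n)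

/-- ROW LIN (uses UP, LOW): the additive case. -/
def StLin : Prop := ∀ (F : Type) [Field F] [Finite F] (R f : F[X]) (r : ℕ)
  (π L : (AlgebraicClosure F)[X]), SemiA R r π L → f ≠ 0 →
  ∀ α : AlgebraicClosure F, aeval α f = 0 → NC R α →
  ∃ c C : ℝ, 0 < c ∧ ∀ᶠ n : ℕ in Filter.atTop, c * n ≤ M f R n ∧ (M f R n : ℝ) ≤ C * n

end Pool.Agent.Lib.MP_02170e_nt.DA
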