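import Mathlib
import Pool.Agent.Lib.MP_02170e_nt.Defs58

/-!
MP_02170e (38): row GM, the multiplicative case. The first lemmas are copied from RotationInvariant.
-/

set_option autoImplicit false

open Polynomial

namespace Pool.Agent.Lib.MP_02170e_nt.DA.GM38

/-- Lifting the exponent. -/
lemma lte (l q : ℕ) (hl : l.Prime) (hq : 1 < q) (hc : ¬ l ∣ q) :
    ∃ C, ∀ n k, 0 < n → l ^ k ∣ q ^ n - 1 → k ≤ C + padicValNat l n := by
  have : Fact l.Prime := ⟨hl⟩
  have hpos : ∀ n, 0 < n → q ^ n - 1 ≠ 0 := fun n hn => by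
    have := Nat.one_lt_pow hn.ne' hq
    omega
  rcases hl.eq_two_or_odd' with rfl | hodd
  · refine ⟨padicValNat 2 (q + 1) + padicValNat 2 (q - 1), fun n k hn hk => ?_⟩
    have h1 : 2 ^ k ∣ q ^ (2 * n) - 1 := by
      refine hk.trans ?_
      have := Nat.sub_dvd_pow_sub_pow (q ^ n) 1 2
      rw [one_pow, ← pow_mul, mul_comm n 2] at this
      exact this
    have h2 := padicValNat.pow_two_sub_pow (x := q) (y := 1) hq (by omega) (by omega)
      (n := 2 * n) (by omega) ⟨n, by ring⟩
    rw [one_pow] at h2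
    have h3 := (padicValNat_dvd_iff_le (hpos (2 * n) (by omega))).mp h1
    have h4 : padicValNat 2 (2 * n) = 1 + padicValNat 2 n := by
      rw [padicValNat.mul (by norm_num) hn.ne']
      simp
    omega
  · refine ⟨padicValNat l (q ^ (l - 1) - 1), fun n k hn hk => ?_⟩
    have h1 : l ^ k ∣ (q ^ (l - 1)) ^ n - 1 ^ n := by
      refine hk.trans ?_
      have := Nat.sub_dvd_pow_sub_pow (q ^ n) 1 (l - 1)
      rw [one_pow, ← pow_mul, mul_comm n (l - 1), pow_mul] at this
      rw [one_pow]
      exact this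
    have hq1 : 1 < q ^ (l - 1) := Nat.one_lt_pow (by have := hl.two_le; omega) hq
    have h0 : l ∣ q ^ (l - 1) - 1 := by
      have h := ZMod.pow_card_sub_one_eq_one (p := l) (a := (q : ZMod l)) (by
        rw [Ne, ZMod.natCast_eq_zero_iff]
        exact hc)
      rw [← Nat.modEq_iff_dvd' hq1.le]
      rw [← ZMod.natCast_eq_natCast_iff]
      push_cast
      exact h.symm
    have h2 := padicValNat.pow_sub_pow (p := l) (x := q ^ (l - 1)) (y := 1) hodd hq1 h0
      (fun h => hc (hl.dvd_of_dvd_pow h)) (n := n) hn.ne'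
    have hne : (q ^ (l - 1)) ^ n - 1 ^ n ≠ 0 := by
      rw [one_pow, ← pow_mul]
      exact hpos _ (Nat.mul_pos (by have := hl.two_le; omega) hn)
    have h3 := (padicValNat_dvd_iff_le hne).mp h1
    omega

section

variable {F : Type} [Field F] [Finite F]

/-- Elements of the closure are fixed by a power of the Frobenius map. -/
lemma frob_fix (x : AlgebraicClosure F) : x ^ (Nat.card F ^ (minpoly F x).natDegree) = x := by
  have hint : IsIntegral F x := Algebra.IsIntegral.isIntegral x
  have := IntermediateField.adjoin.finiteDimensional hint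
  have hfin : Finite (IntermediateField.adjoin F {x}) := Module.finite_of_finite F
  have := Fintype.ofFinite (IntermediateField.adjoin F {x})
  have hcard : Fintype.card (IntermediateField.adjoin F {x}) =
      Nat.card F ^ (minpoly F x).natDegree := by
    rw [← Nat.card_eq_fintype_card, Module.natCard_eq_pow_finrank (K := F),
      IntermediateField.adjoin.finrank hint]
  have h := FiniteField.pow_card
    (⟨x, IntermediateField.mem_adjoin_simple_self F x⟩ : IntermediateField.adjoin F {x})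
  rw [hcard] at h
  exact congrArg Subtype.val h

omit [Finite F] in
lemma fix_mul {x : AlgebraicClosure F} {q a : ℕ} (h : x ^ (q ^ a) = x) (b : ℕ) : x ^ (q ^ (a * b)) = x := by
  induction b with
  | zero => simp
  | succ b ih => rw [mul_add, mul_one, pow_add, pow_mul, ih, h]

omit [Finite F] in
lemma fix_dvd {x : AlgebraicClosure F} {q a b : ℕ} (h : x ^ (q ^ a) = x) (hab : a ∣ b) : x ^ (q ^ b) = x := by
  obtain ⟨c, rfl⟩ := hab
  exact fix_mul h c

/-- The Frobenius map as a ring homomorphism. -/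
lemma exists_frob (E : ℕ) : ∃ φ : (AlgebraicClosure F) →+* (AlgebraicClosure F), ∀ x, φ x = x ^ (Nat.card F ^ E) := by
  have := Fintype.ofFinite F
  obtain ⟨p, hp⟩ := CharP.exists F
  obtain ⟨n, hpp, hn⟩ := FiniteField.card F p
  have : Fact p.Prime := ⟨hpp⟩
  have : CharP (AlgebraicClosure F) p := charP_of_injective_algebraMap (algebraMap F (AlgebraicClosure F)).injective p
  refine ⟨iterateFrobenius (AlgebraicClosure F) p (n * E), fun x => ?_⟩
  rw [iterateFrobenius_def, Nat.card_eq_fintype_card, hn, ← pow_mul]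

lemma fix_eval {E : ℕ} {B : (AlgebraicClosure F)[X]} (hB : ∀ i, (B.coeff i) ^ (Nat.card F ^ E) = B.coeff i) {x : AlgebraicClosure F}
    (hx : x ^ (Nat.card F ^ E) = x) :
    (B.eval x) ^ (Nat.card F ^ E) = B.eval x := by
  obtain ⟨φ, hφ⟩ := exists_frob (F := F) E
  rw [← hφ] at hx ⊢
  have h1 : B.map φ = B := by
    ext i
    rw [coeff_map, hφ, hB]
  calc φ (B.eval x) = (B.map φ).eval (φ x) := by
        rw [eval_map, eval₂_at_apply]
    _ = B.eval x := by rw [h1, hx]

lemma exists_fix (B : (AlgebraicClosure F)[X]) : ∃ m, 0 < m ∧ ∀ i, (B.coeff i) ^ (Nat.card F ^ m) = B.coeff i := by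
  refine ⟨∏ i ∈ B.support, (minpoly F (B.coeff i)).natDegree, ?_, fun i => ?_⟩
  · exact Finset.prod_pos fun i _ => minpoly.natDegree_pos (Algebra.IsIntegral.isIntegral _)
  · by_cases hi : i ∈ B.support
    · exact fix_dvd (frob_fix _) (Finset.dvd_prod_of_mem _ hi)
    · rw [notMem_support_iff.mp hi, zero_pow]
      exact pow_ne_zero _ Nat.card_pos.ne'


omit [Finite F] in
lemma aeval_iter (R : F[X]) (n : ℕ) (x : AlgebraicClosure F) :
    aeval x (R.comp^[n] X) = (fun y => aeval y R)^[n] x := by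
  induction n with
  | zero => simp
  | succ n ih => rw [Function.iterate_succ_apply', Function.iterate_succ_apply', aeval_comp, ih]

omit [Finite F] in
lemma surj (R : F[X]) (hR : 0 < R.natDegree) (n : ℕ) :
    Function.Surjective (fun y : AlgebraicClosure F => aeval y R)^[n] := by
  refine Function.Surjective.iterate (fun y => ?_) n
  obtain ⟨x, hx⟩ := IsAlgClosed.exists_aeval_eq_zero (AlgebraicClosure F) (R.map (algebraMap F (AlgebraicClosure F)) - C y) (by
    rw [degree_sub_C]
    · rw [degree_map]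
      exact (natDegree_pos_iff_degree_pos.mp hR).ne'
    · rw [degree_map]
      exact natDegree_pos_iff_degree_pos.mp hR)
  refine ⟨x, ?_⟩
  simpa [sub_eq_zero] using hx

lemma frob_iter (R : F[X]) (E n : ℕ) {x : AlgebraicClosure F} (hx : x ^ (Nat.card F ^ E) = x) :
    ((fun y : AlgebraicClosure F => aeval y R)^[n] x) ^ (Nat.card F ^ E) = (fun y : AlgebraicClosure F => aeval y R)^[n] x := by
  induction n with
  | zero => exact hx
  | succ n ih =>
    rw [Function.iterate_succ_apply']
    have h1 := fix_eval (F := F) (E := E) (B := R.map (algebraMap F (AlgebraicClosure F))) (fun i => by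
      rw [coeff_map, ← map_pow]
      congr 1
      have := Fintype.ofFinite F
      rw [Nat.card_eq_fintype_card]
      exact FiniteField.pow_card_pow E _) ih
    rw [eval_map_algebraMap] at h1
    exact h1

omit [Finite F] in
/-- Nonempty levels. -/
lemma T_nonempty (R : F[X]) (hR : 0 < R.natDegree) (α : AlgebraicClosure F) (n : ℕ) : (T R α n).Nonempty := by
  obtain ⟨x, hx⟩ := surj R hR n α
  exact ⟨x, by rw [T, Set.mem_ofPred_eq, aeval_iter]; exact hx⟩

omit [Finite F] in
lemma T_finite (R : F[X]) (hR : 0 < R.natDegree) (α : AlgebraicClosure F) (n : ℕ) : (T R α n).Finite := by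
  classical
  set P : (AlgebraicClosure F)[X] := (R.comp^[n] X).map (algebraMap F (AlgebraicClosure F)) - C α with hP
  have hdeg : 0 < (R.comp^[n] X : F[X]).natDegree := by
    rw [natDegree_iterate_comp, natDegree_X, mul_one]
    exact pow_pos hR n
  have hP0 : P ≠ 0 := by
    intro h
    have h1 : P.natDegree = (R.comp^[n] X : F[X]).natDegree := by
      rw [hP, natDegree_sub_C, natDegree_map]
    rw [h, natDegree_zero] at h1
    omega
  refine (P.roots.toFinset.finite_toSet).subset fun x hx => ?_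
  rw [T, Set.mem_ofPred_eq] at hx
  rw [Finset.mem_coe, Multiset.mem_toFinset, mem_roots hP0, IsRoot, hP, eval_sub, eval_C,
    eval_map_algebraMap, hx, sub_self]

omit [Finite F] in
lemma le_M (f R : F[X]) (hf : f ≠ 0) (hR : 0 < R.natDegree) (α : AlgebraicClosure F) (hα : aeval α f = 0) (n : ℕ)
    {x : AlgebraicClosure F} (hx : x ∈ T R α n) : (minpoly F x).natDegree ≤ M f R n := by
  have hint : IsIntegral F x := Algebra.IsIntegral.isIntegral x
  have hne : f.comp (R.comp^[n] X) ≠ 0 := by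
    rw [Ne, comp_eq_zero_iff]
    rintro (h | ⟨-, h⟩)
    · exact hf h
    · have h1 : (R.comp^[n] X : F[X]).natDegree = 0 := by
        rw [h]
        exact natDegree_C _
      rw [natDegree_iterate_comp, natDegree_X, mul_one] at h1
      exact absurd h1 (pow_pos hR n).ne'
  refine le_csSup ⟨(f.comp (R.comp^[n] X)).natDegree, ?_⟩ ?_
  · rintro _ ⟨g, -, hg, rfl⟩
    exact natDegree_le_of_dvd hg hne
  · refine ⟨minpoly F x, minpoly.irreducible hint, minpoly.dvd F x ?_, rfl⟩
    rw [aeval_comp]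
    rw [T, Set.mem_ofPred_eq] at hx
    rw [hx, hα]


omit [Finite F] in
/-- A level with two elements. -/
lemma exists_node (R : F[X]) (c α : AlgebraicClosure F) (h : NC R α) :
    ∃ j, ∃ y ∈ T R α j, y ≠ c := by
  by_contra hcon
  push Not at hcon
  apply h
  refine ⟨1, ?_⟩
  rintro _ ⟨n, rfl⟩
  have h1 : T R α n ⊆ {c} := fun x hx => hcon n x hx
  calc _ ≤ ({c} : Set (AlgebraicClosure F)).ncard := Set.ncard_le_ncard h1
    _ = 1 := Set.ncard_singleton _

omit [Finite F] in
lemma natDegree_pos (R : F[X]) (α : AlgebraicClosure F) (h : NC R α) : 0 < R.natDegree := by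
  by_contra hcon
  obtain ⟨c, rfl⟩ := natDegree_eq_zero.1 (Nat.le_zero.1 (not_lt.1 hcon))
  apply h
  refine ⟨1, ?_⟩
  rintro _ ⟨n, rfl⟩
  show (T (C c) α n).ncard ≤ 1
  cases n with
  | zero =>
    have : T (C c) α 0 = {α} := by
      ext x
      simp [T]
    rw [this, Set.ncard_singleton]
  | succ n =>
    by_cases hc : algebraMap F (AlgebraicClosure F) c = α
    · have : T (C c) α (n + 1) = Set.univ := by
        ext x
        simp only [T, Set.mem_ofPred_eq, Set.mem_univ, iff_true]
        rw [Function.iterate_succ_apply', C_comp, aeval_C, hc]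
      rw [this, Set.Infinite.ncard Set.infinite_univ]
      exact Nat.zero_le _
    · have : T (C c) α (n + 1) = ∅ := by
        ext x
        simp only [T, Set.mem_ofPred_eq, Set.mem_empty_iff_false, iff_false]
        rw [Function.iterate_succ_apply', C_comp, aeval_C]
        exact hc
      rw [this, Set.ncard_empty]
      exact Nat.zero_le _

section fibres

variable {K : Type} [Field K] [IsAlgClosed K]

omit [IsAlgClosed K] in
/-- The fibre polynomial is not zero. -/
lemma fib_ne (P : K[X]) (k : ℕ)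
    (hne : ∃ x y : K, x ≠ 0 ∧ y ≠ 0 ∧ P.eval x / x ^ k ≠ P.eval y / y ^ k) (y : K) :
    P - C y * X ^ k ≠ 0 := by
  intro h
  obtain ⟨a, b, ha, hb, hab⟩ := hne
  apply hab
  rw [sub_eq_zero.1 h]
  simp only [eval_mul, eval_C, eval_pow, eval_X]
  rw [mul_div_assoc, mul_div_assoc, div_self (pow_ne_zero _ ha), div_self (pow_ne_zero _ hb)]

omit [IsAlgClosed K] in
lemma fib_root (P : K[X]) (k : ℕ) (x y : K) (hx : x ≠ 0) :
    P.eval x / x ^ k = y ↔ (P - C y * X ^ k).eval x = 0 := by
  rw [div_eq_iff (pow_ne_zero _ hx)]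
  simp only [eval_sub, eval_mul, eval_C, eval_pow, eval_X]
  rw [sub_eq_zero]

/-- All values but one are taken. -/
lemma fib_miss (P : K[X]) (k : ℕ)
    (hne : ∃ x y : K, x ≠ 0 ∧ y ≠ 0 ∧ P.eval x / x ^ k ≠ P.eval y / y ^ k) (y : K)
    (hy : y ≠ P.coeff k) : ∃ x, x ≠ 0 ∧ P.eval x / x ^ k = y := by
  by_contra hcon
  push Not at hcon
  set Q := P - C y * X ^ k with hQ
  have hQ0 : Q ≠ 0 := fib_ne P k hne y
  have hsp : Q.Splits := IsAlgClosed.splits Q
  have hroots : Q.roots = Multiset.replicate Q.roots.card 0 := by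
    refine Multiset.eq_replicate_card.2 fun x hx => ?_
    by_contra hx0
    exact hcon x hx0 ((fib_root P k x y hx0).2 ((mem_roots hQ0).1 hx))
  have hQe : Q = C Q.leadingCoeff * X ^ Q.roots.card := by
    have h1 := hsp.eq_prod_roots
    rw [hroots] at h1
    simpa using h1
  have hk : Q.coeff k ≠ 0 := by
    rw [hQ, coeff_sub, coeff_C_mul, coeff_X_pow_self, mul_one]
    exact sub_ne_zero.2 hy.symm
  have hk2 : k = Q.roots.card := by
    by_contra hkk
    apply hk
    rw [hQe, coeff_C_mul, coeff_X_pow, if_neg hkk, mul_zero]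
  have hP : P = C (Q.leadingCoeff + y) * X ^ k := by
    have h2 : P = Q + C y * X ^ k := by rw [hQ]; ring
    rw [h2]
    nth_rewrite 1 [hQe]
    rw [← hk2, map_add, add_mul]
  obtain ⟨a, b, ha, hb, hab⟩ := hne
  apply hab
  rw [hP]
  simp only [eval_mul, eval_C, eval_pow, eval_X]
  rw [mul_div_assoc, mul_div_assoc, div_self (pow_ne_zero _ ha), div_self (pow_ne_zero _ hb)]

omit [IsAlgClosed K] in
/-- The number of elements of the fibres. -/
lemma fib_fin (P : K[X]) (k : ℕ)
    (hne : ∃ x y : K, x ≠ 0 ∧ y ≠ 0 ∧ P.eval x / x ^ k ≠ P.eval y / y ^ k) (y : K) :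
    {x | x ∈ {x : K | x ≠ 0} ∧ P.eval x / x ^ k = y}.Finite ∧
      {x | x ∈ {x : K | x ≠ 0} ∧ P.eval x / x ^ k = y}.ncard ≤ max P.natDegree k := by
  classical
  have hsub : {x | x ∈ {x : K | x ≠ 0} ∧ P.eval x / x ^ k = y} ⊆
      ((P - C y * X ^ k).roots.toFinset : Set K) := by
    rintro x ⟨hx, hxy⟩
    rw [Finset.mem_coe, Multiset.mem_toFinset, mem_roots (fib_ne P k hne y)]
    exact (fib_root P k x y hx).1 hxy
  refine ⟨(Finset.finite_toSet _).subset hsub, ?_⟩
  refine (Set.ncard_le_ncard hsub (Finset.finite_toSet _)).trans ?_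
  rw [Set.ncard_coe_finset]
  refine (Multiset.toFinset_card_le _).trans ((card_roots' _).trans ?_)
  refine (natDegree_sub_le _ _).trans (max_le_max le_rfl ?_)
  exact natDegree_C_mul_X_pow_le _ _

omit [IsAlgClosed K] in
/-- A ring endomorphism which fixes a polynomial permutes its roots. -/
lemma perm (φ : K →+* K) (Q : K[X]) (hQ : Q ≠ 0) (hφ : Q.map φ = Q) (x : K) (hx : Q.eval x = 0) :
    ∃ i, 0 < i ∧ i ≤ Q.natDegree ∧ φ^[i] x = x := by
  classical
  have hroot : ∀ i, Q.eval (φ^[i] x) = 0 := by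
    intro i
    induction i with
    | zero => exact hx
    | succ i ih =>
      rw [Function.iterate_succ_apply', ← hφ, eval_map, eval₂_at_apply, ih, map_zero]
  have hcard : Q.roots.toFinset.card < (Finset.range (Q.natDegree + 1)).card := by
    rw [Finset.card_range]
    exact Nat.lt_succ_of_le ((Multiset.toFinset_card_le _).trans (card_roots' _))
  obtain ⟨a, ha, b, hb, hab, he⟩ := Finset.exists_ne_map_eq_of_card_lt_of_maps_to hcard
    (f := fun i => φ^[i] x) (fun i _ => by
      rw [Finset.mem_coe, Multiset.mem_toFinset, mem_roots hQ]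
      exact hroot i)
  rw [Finset.mem_range] at ha hb
  have hinj : Function.Injective φ := φ.injective
  rcases lt_or_gt_of_ne hab with h | h
  · refine ⟨b - a, by omega, by omega, (hinj.iterate a) ?_⟩
    rw [← Function.iterate_add_apply, Nat.add_sub_cancel' h.le]
    exact he.symm
  · refine ⟨a - b, by omega, by omega, (hinj.iterate b) ?_⟩
    rw [← Function.iterate_add_apply, Nat.add_sub_cancel' h.le]
    exact he

end fibres

omit [Finite F] in
/-- The iterates. -/
lemma semi_iter (R : F[X]) (r : ℕ) (P : (AlgebraicClosure F)[X]) (k d : ℕ)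
    (h : ∀ x : AlgebraicClosure F, x ≠ 0 →
      aeval (P.eval x / x ^ k) (R.comp^[r] X) = P.eval (x ^ d) / (x ^ d) ^ k) (m : ℕ) :
    ∀ x : AlgebraicClosure F, x ≠ 0 →
      (fun y : AlgebraicClosure F => aeval y R)^[r * m] (P.eval x / x ^ k) =
        P.eval (x ^ (d ^ m)) / (x ^ (d ^ m)) ^ k := by
  induction m with
  | zero => intro x _; simp
  | succ m ih =>
    intro x hx
    rw [mul_add, mul_one, Function.iterate_add_apply, ← aeval_iter R r, h x hx,
      ih (x ^ d) (pow_ne_zero _ hx), ← pow_mul, ← pow_succ']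

/-- The degree of a preimage. -/
lemma core (R : F[X]) (r : ℕ) (P : (AlgebraicClosure F)[X]) (k d : ℕ)
    (hne : ∃ x y : AlgebraicClosure F, x ≠ 0 ∧ y ≠ 0 ∧ P.eval x / x ^ k ≠ P.eval y / y ^ k)
    (h : ∀ x : AlgebraicClosure F, x ≠ 0 →
      aeval (P.eval x / x ^ k) (R.comp^[r] X) = P.eval (x ^ d) / (x ^ d) ^ k)
    (hR : 0 < R.natDegree) (α : AlgebraicClosure F) (j : ℕ) (x0 : AlgebraicClosure F)
    (hx0 : x0 ≠ 0) (hj : P.eval x0 / x0 ^ k ∈ T R α j) (E : ℕ) (hE0 : 0 < E)
    (hE : ∀ i, P.coeff i ^ (Nat.card F ^ E) = P.coeff i) (m n : ℕ) (hn : j + r * m ≤ n) (B : ℕ)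
    (hB : ∀ z ∈ T R α n, (minpoly F z).natDegree ≤ B) (hd : 0 < d) (x : AlgebraicClosure F)
    (hx : x ^ (d ^ m) = x0) :
    ∃ N, 0 < N ∧ N ≤ B * E * max P.natDegree k ∧ x ^ (Nat.card F ^ N) = x := by
  have hint : ∀ x : AlgebraicClosure F, IsIntegral F x := fun x => Algebra.IsIntegral.isIntegral x
  have hxn : x ≠ 0 := by
    rintro rfl
    rw [zero_pow (pow_pos hd m).ne'] at hx
    exact hx0 hx.symm
  set y := P.eval x / x ^ k with hy
  have h1 := semi_iter R r P k d h m x hxn
  rw [hx, ← hy] at h1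
  obtain ⟨z, hz⟩ := surj R hR (n - (j + r * m)) y
  have hzT : z ∈ T R α n := by
    show aeval z (R.comp^[n] X) = α
    have h4 : n = j + (r * m + (n - (j + r * m))) := by omega
    rw [aeval_iter, h4, Function.iterate_add_apply, Function.iterate_add_apply, hz, h1,
      ← aeval_iter]
    exact hj
  set N0 := (minpoly F z).natDegree with hN0
  have hN0pos : 0 < N0 := minpoly.natDegree_pos (hint z)
  have hy0 : y ^ (Nat.card F ^ N0) = y := by
    have := frob_iter R N0 (n - (j + r * m)) (frob_fix z)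
    rw [hz] at this
    exact this
  set N1 := N0 * E with hN1
  obtain ⟨φ, hφ⟩ := exists_frob (F := F) N1
  have hφy : φ y = y := by
    rw [hφ]
    exact fix_mul hy0 E
  have hφP : P.map φ = P := by
    ext i
    rw [coeff_map, hφ]
    exact fix_dvd (hE i) (dvd_mul_left E N0)
  have hmap : (P - C y * X ^ k).map φ = P - C y * X ^ k := by
    rw [Polynomial.map_sub, Polynomial.map_mul, map_C, Polynomial.map_pow, map_X, hφP, hφy]
  obtain ⟨i, hi0, hi, hix⟩ := perm φ _ (fib_ne P k hne y) hmap x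
    ((fib_root P k x y hxn).1 rfl)
  have hpow : ∀ i, φ^[i] x = x ^ (Nat.card F ^ (N1 * i)) := by
    intro i
    induction i with
    | zero => simp
    | succ i ih => rw [Function.iterate_succ_apply', ih, hφ, ← pow_mul, ← pow_add, mul_add, mul_one]
  refine ⟨N1 * i, Nat.mul_pos (Nat.mul_pos hN0pos hE0) hi0, ?_, ?_⟩
  · refine Nat.mul_le_mul (Nat.mul_le_mul_right E (hB z hzT)) (hi.trans ?_)
    refine (natDegree_sub_le _ _).trans (max_le_max le_rfl ?_)
    exact natDegree_C_mul_X_pow_le _ _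
  · rw [← hpow, hix]

/-- The growth. -/
lemma growth (R f : F[X]) (hf : f ≠ 0) (r : ℕ) (hr : 0 < r) (P : (AlgebraicClosure F)[X]) (k d : ℕ)
    (hne : ∃ x y : AlgebraicClosure F, x ≠ 0 ∧ y ≠ 0 ∧ P.eval x / x ^ k ≠ P.eval y / y ^ k)
    (h : ∀ x : AlgebraicClosure F, x ≠ 0 →
      aeval (P.eval x / x ^ k) (R.comp^[r] X) = P.eval (x ^ d) / (x ^ d) ^ k)
    (hR : 0 < R.natDegree) (α : AlgebraicClosure F) (hα : aeval α f = 0) (hnc : NC R α)
    (hd : 0 < d) (l : ℕ) (hl : l.Prime) (hF : (l : F) ≠ 0) (hld : l ∣ d) :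
    ∃ c : ℝ, 0 < c ∧ ∀ᶠ n : ℕ in Filter.atTop, c * n ≤ Real.log (M f R n) := by
  have hint : ∀ x : AlgebraicClosure F, IsIntegral F x := fun x => Algebra.IsIntegral.isIntegral x
  obtain ⟨j, y0, hy0, hy0c⟩ := exists_node R (P.coeff k) α hnc
  obtain ⟨x0, hx0, hxy⟩ := fib_miss P k hne y0 hy0c
  obtain ⟨E, hE0, hE⟩ := exists_fix (F := F) P
  have hq : 1 < Nat.card F := by
    have := Fintype.ofFinite F
    rw [Nat.card_eq_fintype_card]
    exact Fintype.one_lt_card
  have hlq : ¬ l ∣ Nat.card F := by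
    intro h
    have := Fintype.ofFinite F
    obtain ⟨p, hp⟩ := CharP.exists F
    obtain ⟨n, hpp, hn⟩ := FiniteField.card F p
    rw [Nat.card_eq_fintype_card, hn] at h
    have h1 := (Nat.prime_dvd_prime_iff_eq hl hpp).mp (hl.dvd_of_dvd_pow h)
    rw [h1] at hF
    exact hF (CharP.cast_eq_zero F p)
  have hlK : (l : AlgebraicClosure F) ≠ 0 := by
    have h1 := (algebraMap F (AlgebraicClosure F)).injective.ne hF
    simpa using h1
  obtain ⟨C0, hC0⟩ := lte l (Nat.card F) hl hq hlq
  set D := max P.natDegree k with hD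
  have hfact : Fact l.Prime := ⟨hl⟩
  have main : ∀ m n : ℕ, j + r * m ≤ n → l ^ m ≤ l ^ C0 * (M f R n * (E * D)) ^ 2 := by
    intro m n hn
    have hB : ∀ z ∈ T R α n, (minpoly F z).natDegree ≤ M f R n := fun z hz =>
      le_M f R hf hR α hα n hz
    have hdm : 0 < d ^ m := pow_pos hd m
    obtain ⟨a, ha⟩ := IsAlgClosed.exists_pow_nat_eq x0 hdm
    have : NeZero ((l ^ m : ℕ) : AlgebraicClosure F) := ⟨by push_cast; exact pow_ne_zero _ hlK⟩
    obtain ⟨ζ, hζ⟩ := HasEnoughRootsOfUnity.exists_primitiveRoot (AlgebraicClosure F) (l ^ m)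
    have ha0 : a ≠ 0 := by
      rintro rfl
      rw [zero_pow hdm.ne'] at ha
      exact hx0 ha.symm
    have hζa : (ζ * a) ^ (d ^ m) = x0 := by
      rw [mul_pow, ha]
      obtain ⟨e, he⟩ := pow_dvd_pow_of_dvd hld m
      rw [he, pow_mul, hζ.pow_eq_one, one_pow, one_mul]
    have hmem : P.eval x0 / x0 ^ k ∈ T R α j := by
      rw [hxy]
      exact hy0
    obtain ⟨N, hN0, hN, hNa⟩ := core R r P k d hne h hR α j x0 hx0 hmem E hE0 hE m n hn _ hB hd a ha
    obtain ⟨N', hN0', hN', hNa'⟩ := core R r P k d hne h hR α j x0 hx0 hmem E hE0 hE m n hn _ hB hd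
      (ζ * a) hζa
    have h1 : a ^ (Nat.card F ^ (N * N')) = a := fix_mul hNa N'
    have h2 : (ζ * a) ^ (Nat.card F ^ (N * N')) = ζ * a := by
      rw [mul_comm N N']
      exact fix_mul hNa' N
    rw [mul_pow, h1] at h2
    have h3 : ζ ^ (Nat.card F ^ (N * N')) = ζ := mul_right_cancel₀ ha0 h2
    have h4 : ζ ^ (Nat.card F ^ (N * N') - 1) = 1 := by
      have hζ0 : ζ ≠ 0 := hζ.ne_zero (pow_pos hl.pos m).ne'
      have h5 : 0 < Nat.card F ^ (N * N') := pow_pos Nat.card_pos _
      have h6 : ζ ^ (Nat.card F ^ (N * N') - 1) * ζ = 1 * ζ := by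
        rw [← pow_succ, Nat.sub_add_cancel h5, h3, one_mul]
      exact mul_right_cancel₀ hζ0 h6
    have h5 : l ^ m ∣ Nat.card F ^ (N * N') - 1 := hζ.dvd_of_pow_eq_one _ h4
    have hNN : 0 < N * N' := Nat.mul_pos hN0 hN0'
    have h6 := hC0 (N * N') m hNN h5
    have h7 : l ^ padicValNat l (N * N') ≤ N * N' := Nat.le_of_dvd hNN pow_padicValNat_dvd
    calc l ^ m ≤ l ^ (C0 + padicValNat l (N * N')) := Nat.pow_le_pow_right hl.pos h6
      _ = l ^ C0 * l ^ padicValNat l (N * N') := pow_add _ _ _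
      _ ≤ l ^ C0 * (N * N') := Nat.mul_le_mul_left _ h7
      _ ≤ l ^ C0 * (M f R n * (E * D)) ^ 2 := by
          refine Nat.mul_le_mul_left _ ?_
          rw [pow_two]
          refine Nat.mul_le_mul ?_ ?_
          · rw [← mul_assoc]; exact hN
          · rw [← mul_assoc]; exact hN'
  have hlog : 0 < Real.log l := Real.log_pos (by exact_mod_cast hl.one_lt)
  have hrR : (0 : ℝ) < r := by exact_mod_cast hr
  have hMpos : ∀ n, 1 ≤ M f R n := by
    intro n
    obtain ⟨x, hx⟩ := T_nonempty R hR α n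
    exact (minpoly.natDegree_pos (hint x)).trans_le (le_M f R hf hR α hα n hx)
  have hED : 0 < E * D := by
    by_contra hcon
    have h0 : E * D = 0 := by omega
    have := main 0 (j + r * 0) le_rfl
    rw [h0, mul_zero] at this
    simp at this
  set C2 : ℝ := ((j : ℝ) / r + 1) * (Real.log l / 2) + (C0 * Real.log l) / 2 +
    Real.log ((E * D : ℕ) : ℝ) with hC2
  refine ⟨Real.log l / (4 * r), by positivity, ?_⟩
  obtain ⟨N, hN⟩ := exists_nat_ge (C2 / (Real.log l / (4 * r)))
  filter_upwards [Filter.eventually_ge_atTop (max N j)] with n hn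
  have hnN : N ≤ n := (le_max_left _ _).trans hn
  have hnj : j ≤ n := (le_max_right _ _).trans hn
  set m := (n - j) / r with hm
  have h1 : r * m ≤ n - j := Nat.mul_div_le _ _
  have h2 : n - j < r * (m + 1) := Nat.lt_mul_div_succ _ hr
  have h3 := main m n (by omega)
  have h4 : ((l : ℝ)) ^ m ≤ (l : ℝ) ^ C0 * ((M f R n : ℝ) * ((E * D : ℕ) : ℝ)) ^ 2 := by
    exact_mod_cast h3
  have hl0 : (0 : ℝ) < l := by exact_mod_cast hl.pos
  have hM0 : (0 : ℝ) < M f R n := by exact_mod_cast hMpos n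
  have hE1 : (0 : ℝ) < ((E * D : ℕ) : ℝ) := by exact_mod_cast hED
  have h5 := Real.log_le_log (pow_pos hl0 m) h4
  rw [Real.log_mul (pow_pos hl0 _).ne' (pow_pos (mul_pos hM0 hE1) 2).ne', Real.log_pow,
    Real.log_pow, Real.log_pow, Real.log_mul hM0.ne' hE1.ne'] at h5
  have h6 : (n : ℝ) ≤ j + r * (m + 1) := by
    have : n ≤ j + r * (m + 1) := by omega
    exact_mod_cast this
  have h7 : (n : ℝ) / r - j / r - 1 ≤ m := by
    rw [div_sub_div_same, sub_le_iff_le_add, div_le_iff₀ hrR]
    nlinarith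
  have h8 : C2 ≤ Real.log l / (4 * r) * n := by
    have h9 : C2 / (Real.log l / (4 * r)) ≤ n := hN.trans (by exact_mod_cast hnN)
    rw [div_le_iff₀ (by positivity)] at h9
    linarith
  have h9 : ((n : ℝ) / r - j / r - 1) * (Real.log l / 2) ≤ m * (Real.log l / 2) :=
    mul_le_mul_of_nonneg_right h7 (by positivity)
  have h10 : (n : ℝ) / r * (Real.log l / 2) = 2 * (Real.log l / (4 * r) * n) := by
    field_simp
    ring
  push_cast at h5
  rw [hC2] at h8
  push_cast at h8
  nlinarith

end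

theorem gm38 (hinj : StInj) : StGm := by
  intro F _ _ R f r P k d hS hf α hα hnc
  obtain ⟨hr, hne, h⟩ := hS
  have hR := natDegree_pos R α hnc
  have hcofin : ((fun x : AlgebraicClosure F => P.eval x / x ^ k) '' {x | x ≠ 0})ᶜ.Finite := by
    refine (Set.finite_singleton (P.coeff k)).subset fun y hy => ?_
    by_contra hyc
    obtain ⟨x, hx, hxy⟩ := fib_miss P k hne y hyc
    exact hy ⟨x, hx, hxy⟩
  rcases Nat.eq_zero_or_pos d with hd | hd
  · -- the iterate is constant
    exfalso
    subst hd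
    set v := P.eval 1 / (1 : AlgebraicClosure F) ^ k with hv
    have h1 : ∀ x : AlgebraicClosure F, x ≠ 0 → aeval (P.eval x / x ^ k) (R.comp^[r] X) = v := by
      intro x hx
      rw [h x hx, pow_zero]
    have h2 : ((R.comp^[r] X).map (algebraMap F (AlgebraicClosure F)) - C v) = 0 := by
      apply Polynomial.eq_zero_of_infinite_isRoot
      have hinf := hcofin.infinite_compl
      rw [compl_compl] at hinf
      refine hinf.mono ?_
      rintro _ ⟨x, hx, rfl⟩
      show IsRoot _ _
      rw [IsRoot, eval_sub, eval_C, eval_map_algebraMap, h1 x hx, sub_self]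
    have h3 := congrArg natDegree (sub_eq_zero.1 h2)
    rw [natDegree_map, natDegree_iterate_comp, natDegree_X, mul_one, natDegree_C] at h3
    exact absurd h3 (pow_pos hR r).ne'
  by_cases hex : ∃ l : ℕ, l.Prime ∧ l ∣ d ∧ (l : F) ≠ 0
  · obtain ⟨l, hl, hld, hF⟩ := hex
    exact growth R f hf r hr P k d hne h hR α hα hnc hd l hl hF hld
  · exfalso
    push Not at hex
    obtain ⟨p, hp⟩ := CharP.exists F
    have hpp : p.Prime := by
      have := Fintype.ofFinite F
      obtain ⟨n, hpp, hn⟩ := FiniteField.card F p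
      exact hpp
    have hdp : d = p ^ d.primeFactorsList.length := by
      refine Nat.eq_prime_pow_of_unique_prime_dvd hd.ne' fun {l} hl hld => ?_
      have h1 := hex l hl hld
      rw [CharP.cast_eq_zero_iff F p] at h1
      exact ((Nat.prime_dvd_prime_iff_eq hpp hl).1 h1).symm
    have : Fact p.Prime := ⟨hpp⟩
    have : CharP (AlgebraicClosure F) p :=
      charP_of_injective_algebraMap (algebraMap F (AlgebraicClosure F)).injective p
    apply hnc
    refine hinj F R r {x | x ≠ 0} (fun x => P.eval x / x ^ k) (fun x => x ^ d)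
      (max P.natDegree k) hr hR (fun x hx => pow_ne_zero _ hx) (fun x hx => h x hx)
      (fun y => fib_fin P k hne y) hcofin (fun x _ y _ hxy => ?_) α
    have hxy' : x ^ d = y ^ d := hxy
    rw [hdp] at hxy'
    exact (iterateFrobenius_inj (AlgebraicClosure F) p _) (by
      rw [iterateFrobenius_def, iterateFrobenius_def]
      exact hxy')

end Pool.Agent.Lib.MP_02170e_nt.DA.GM38
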