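import Mathlib
import Pool.Agent.Lib.MP_02170e_nt.Defs58

/-!
Row LOW: the levels grow exponentially in the additive case.
-/

set_option autoImplicit false

open Polynomial

namespace Pool.Agent.Lib.MP_02170e_nt.DA.L53

variable {F : Type} [Field F]

lemma aeval_iter (R : F[X]) (n : ℕ) (x : AlgebraicClosure F) :
    aeval x (R.comp^[n] X) = (fun y => aeval y R)^[n] x := by
  induction n with
  | zero => simp
  | succ n ih => rw [Function.iterate_succ_apply', Function.iterate_succ_apply', aeval_comp, ih]

lemma surj_eval (P : (AlgebraicClosure F)[X]) (hP : 0 < P.natDegree) (y : AlgebraicClosure F) :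
    ∃ x, P.eval x = y := by
  obtain ⟨x, hx⟩ := IsAlgClosed.exists_root (P - C y) (by
    rw [degree_sub_C (natDegree_pos_iff_degree_pos.mp hP)]
    exact (natDegree_pos_iff_degree_pos.mp hP).ne')
  refine ⟨x, ?_⟩
  simpa [sub_eq_zero] using hx

lemma surj (R : F[X]) (hR : 0 < R.natDegree) (n : ℕ) :
    Function.Surjective (fun y : AlgebraicClosure F => aeval y R)^[n] := by
  refine Function.Surjective.iterate (fun y => ?_) n
  obtain ⟨x, hx⟩ := surj_eval (R.map (algebraMap F (AlgebraicClosure F)))
    (by rw [natDegree_map]; exact hR) y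
  exact ⟨x, by rw [← hx, eval_map_algebraMap]⟩

lemma mem_T (R : F[X]) (α : AlgebraicClosure F) (n : ℕ) (x : AlgebraicClosure F) :
    x ∈ T R α n ↔ (fun y => aeval y R)^[n] x = α := by
  rw [← aeval_iter]; rfl

lemma T_nonempty (R : F[X]) (hR : 0 < R.natDegree) (α : AlgebraicClosure F) (n : ℕ) :
    (T R α n).Nonempty := by
  obtain ⟨x, hx⟩ := surj R hR n α
  exact ⟨x, (mem_T R α n x).mpr hx⟩

lemma T_finite (R : F[X]) (hR : 0 < R.natDegree) (α : AlgebraicClosure F) (n : ℕ) :
    (T R α n).Finite := by
  classical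
  set P : (AlgebraicClosure F)[X] :=
    (R.comp^[n] X).map (algebraMap F (AlgebraicClosure F)) - C α with hP
  have hdeg : 0 < (R.comp^[n] X : F[X]).natDegree := by
    rw [natDegree_iterate_comp, natDegree_X, mul_one]
    exact pow_pos hR n
  have hP0 : P ≠ 0 := by
    intro h
    have h1 : P.natDegree = (R.comp^[n] X : F[X]).natDegree := by
      rw [hP, natDegree_sub_C, natDegree_map]
    rw [h, natDegree_zero] at h1
    omega
  refine (P.roots.toFinset.finite_toSet).subset fun x hx => ?_
  have hx' : aeval x (R.comp^[n] X) = α := hx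
  rw [Finset.mem_coe, Multiset.mem_toFinset, mem_roots hP0, IsRoot, hP, eval_sub, eval_C,
    eval_map_algebraMap, hx', sub_self]

lemma natDegree_pos_of_NC (R : F[X]) (α : AlgebraicClosure F) (h : NC R α) :
    0 < R.natDegree := by
  by_contra hcon
  have h0 : R.natDegree = 0 := by omega
  obtain ⟨a, rfl⟩ : ∃ a, R = C a := ⟨R.coeff 0, eq_C_of_natDegree_eq_zero h0⟩
  apply h
  refine ⟨1, ?_⟩
  rintro _ ⟨n, rfl⟩
  rcases n with _ | n
  · have : T (C a) α 0 = {α} := by
      ext x
      rw [mem_T]
      simp
    simp only [this, Set.ncard_singleton, le_refl]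
  · have hT : ∀ x : AlgebraicClosure F, x ∈ T (C a) α (n + 1) ↔ algebraMap F _ a = α := by
      intro x
      rw [mem_T, Function.iterate_succ_apply']
      simp
    by_cases hα : algebraMap F (AlgebraicClosure F) a = α
    · have : T (C a) α (n + 1) = Set.univ := by
        ext x
        rw [hT x]
        simp [hα]
      have hinf : (Set.univ : Set (AlgebraicClosure F)).Infinite := Set.infinite_univ
      simp only [this, hinf.ncard]
      exact Nat.zero_le _
    · have : T (C a) α (n + 1) = ∅ := by
        ext x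
        rw [hT x]
        simp [hα]
      simp only [this, Set.ncard_empty]
      exact Nat.zero_le _

/-- many preimages -/
lemma many (L : AlgebraicClosure F → AlgebraicClosure F) (hL : Function.Surjective L)
    (z : AlgebraicClosure F) (hz : z ≠ 0) (hLz : ∀ x, L (x + z) = L x)
    (s : AlgebraicClosure F) (k : ℕ) :
    ∃ S : Finset (AlgebraicClosure F), 2 ^ k ≤ S.card ∧ ∀ x ∈ S, L^[k] x = s := by
  classical
  induction k with
  | zero => exact ⟨{s}, by simp, by simp⟩
  | succ k ih =>
    obtain ⟨S, hS, hSs⟩ := ih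
    choose p hp using hL
    have hpinj : Function.Injective p := fun x y hxy => by
      rw [← hp x, ← hp y, hxy]
    have hpinj2 : Function.Injective (fun x => p x + z) := fun x y hxy =>
      hpinj (add_right_cancel hxy)
    refine ⟨S.image p ∪ S.image (fun x => p x + z), ?_, ?_⟩
    · rw [Finset.card_union_of_disjoint, Finset.card_image_of_injective _ hpinj,
        Finset.card_image_of_injective _ hpinj2, pow_succ]
      · omega
      · rw [Finset.disjoint_left]
        intro w hw1 hw2
        obtain ⟨x, -, hx⟩ := Finset.mem_image.mp hw1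
        obtain ⟨y, -, hy⟩ := Finset.mem_image.mp hw2
        have h1 : L w = x := by rw [← hx, hp]
        have h2 : L w = y := by rw [← hy, hLz, hp]
        have h3 : x = y := h1.symm.trans h2
        rw [← h3, ← hx] at hy
        exact hz (by simpa using hy)
    · intro w hw
      rw [Function.iterate_succ_apply]
      rcases Finset.mem_union.mp hw with h | h
      · obtain ⟨x, hx, rfl⟩ := Finset.mem_image.mp h
        rw [hp]
        exact hSs x hx
      · obtain ⟨x, hx, rfl⟩ := Finset.mem_image.mp h
        rw [hLz, hp]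
        exact hSs x hx

lemma fibre_card (P : (AlgebraicClosure F)[X]) (hP : 0 < P.natDegree) (y : AlgebraicClosure F) :
    {x | x ∈ (Set.univ : Set (AlgebraicClosure F)) ∧ P.eval x = y}.Finite ∧
      {x | x ∈ (Set.univ : Set (AlgebraicClosure F)) ∧ P.eval x = y}.ncard ≤ P.natDegree := by
  classical
  have h0 : P - C y ≠ 0 := by
    intro h
    have h1 : (P - C y).natDegree = P.natDegree := natDegree_sub_C
    rw [h, natDegree_zero] at h1
    omega
  have hsub : {x | x ∈ (Set.univ : Set (AlgebraicClosure F)) ∧ P.eval x = y} ⊆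
      ((P - C y).roots.toFinset : Set (AlgebraicClosure F)) := by
    intro x hx
    rw [Finset.mem_coe, Multiset.mem_toFinset, mem_roots h0, IsRoot, eval_sub, eval_C, hx.2,
      sub_self]
  refine ⟨(Finset.finite_toSet _).subset hsub, ?_⟩
  calc _ ≤ ((P - C y).roots.toFinset : Set (AlgebraicClosure F)).ncard :=
        Set.ncard_le_ncard hsub (Finset.finite_toSet _)
    _ = (P - C y).roots.toFinset.card := Set.ncard_coe_finset _
    _ ≤ (P - C y).roots.card := Multiset.toFinset_card_le _
    _ ≤ (P - C y).natDegree := card_roots' _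
    _ = P.natDegree := natDegree_sub_C

lemma semi (R : F[X]) (r : ℕ) (π L : (AlgebraicClosure F)[X])
    (h : ((R.comp^[r] X).map (algebraMap F (AlgebraicClosure F))).comp π = π.comp L)
    (x : AlgebraicClosure F) :
    aeval (π.eval x) (R.comp^[r] X) = π.eval (L.eval x) := by
  have h1 := congrArg (eval x) h
  rw [eval_comp, eval_comp, eval_map_algebraMap] at h1
  exact h1

lemma semi_iter (R : F[X]) (r : ℕ) (π L : (AlgebraicClosure F)[X])
    (h : ((R.comp^[r] X).map (algebraMap F (AlgebraicClosure F))).comp π = π.comp L)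
    (k : ℕ) (x : AlgebraicClosure F) :
    (fun y => aeval y R)^[r * k] (π.eval x) = π.eval ((fun y => L.eval y)^[k] x) := by
  induction k generalizing x with
  | zero => simp
  | succ k ih =>
    rw [Nat.mul_succ, Function.iterate_add_apply, ← aeval_iter R r, semi R r π L h, ih,
      Function.iterate_succ_apply]

theorem low_core (hInj : StInj) (R : F[X]) [Finite F] (r : ℕ) (π L : (AlgebraicClosure F)[X])
    (hS : SemiA R r π L) (α : AlgebraicClosure F) (hNC : NC R α) (n : ℕ) :
    2 ^ (n / r) ≤ π.natDegree * (T R α n).ncard := by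
  classical
  obtain ⟨hr, hπ, hA, hcomp⟩ := hS
  have hR := natDegree_pos_of_NC R α hNC
  have hLdeg : 0 < L.natDegree := by
    by_contra hcon
    have h0 : L.natDegree = 0 := by omega
    have h1 := congrArg natDegree hcomp
    rw [natDegree_comp, natDegree_comp, natDegree_map, natDegree_iterate_comp, natDegree_X,
      mul_one, h0, mul_zero] at h1
    have h2 : 0 < R.natDegree ^ r * π.natDegree := Nat.mul_pos (pow_pos hR r) hπ
    omega
  have hLs : Function.Surjective (fun x => L.eval x) := fun y => surj_eval L hLdeg y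
  -- not injective
  have hninj : ¬ Function.Injective (fun x => L.eval x) := by
    intro hinj
    apply hNC
    refine hInj F R r Set.univ (fun x => π.eval x) (fun x => L.eval x) π.natDegree hr hR
      (fun _ _ => Set.mem_univ _) (fun x _ => semi R r π L hcomp x) (fun y => fibre_card π hπ y)
      ?_ (fun x _ y _ hxy => hinj hxy) α
    have : ((fun x => π.eval x) '' Set.univ)ᶜ = (∅ : Set (AlgebraicClosure F)) := by
      rw [Set.compl_empty_iff, Set.image_univ, Set.range_eq_univ]
      exact fun y => surj_eval π hπ y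
    rw [this]
    exact Set.finite_empty
  obtain ⟨x, y, hxy, hne⟩ : ∃ x y, L.eval x = L.eval y ∧ x ≠ y := by
    by_contra hcon
    push Not at hcon
    exact hninj fun x y hxy => hcon x y hxy
  have hz0 : L.eval (x - y) = L.eval 0 := by
    have h1 := hA (x - y) y
    rw [sub_add_cancel, hxy] at h1
    have h2 : L.eval y + L.eval 0 = L.eval y + L.eval (x - y) := by rw [h1, add_comm]
    exact (add_left_cancel h2).symm
  have hLz : ∀ w, L.eval (w + (x - y)) = L.eval w := by
    intro w
    have h1 := hA w (x - y)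
    rw [hz0] at h1
    exact add_right_cancel h1
  obtain ⟨y0, hy0⟩ := T_nonempty R hR α (n % r)
  obtain ⟨s, hs⟩ := surj_eval π hπ y0
  obtain ⟨S, hScard, hSs⟩ := many (fun x => L.eval x) hLs (x - y) (sub_ne_zero.mpr hne) hLz s
    (n / r)
  have hsub : ((S.image (fun x => π.eval x) : Finset (AlgebraicClosure F)) :
      Set (AlgebraicClosure F)) ⊆ T R α n := by
    intro w hw
    obtain ⟨x, hx, rfl⟩ := Finset.mem_image.mp (Finset.mem_coe.mp hw)
    rw [mem_T]
    have hn : n = n % r + r * (n / r) := (Nat.mod_add_div n r).symm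
    rw [hn, Function.iterate_add_apply]
    have h1 := semi_iter R r π L hcomp (n / r) x
    rw [h1, hSs x hx, hs]
    exact (mem_T R α (n % r) y0).mp hy0
  have hcard1 : S.card ≤ π.natDegree * (S.image (fun x => π.eval x)).card := by
    apply Finset.card_le_mul_card_image
    intro b _
    have h1 := fibre_card π hπ b
    calc (S.filter (fun a => π.eval a = b)).card
        = ((S.filter (fun a => π.eval a = b) : Finset (AlgebraicClosure F)) :
            Set (AlgebraicClosure F)).ncard := (Set.ncard_coe_finset _).symm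
      _ ≤ _ := Set.ncard_le_ncard (fun a ha => by
          have := Finset.mem_filter.mp (Finset.mem_coe.mp ha)
          exact ⟨Set.mem_univ _, this.2⟩) h1.1
      _ ≤ π.natDegree := h1.2
  have hcard2 : (S.image (fun x => π.eval x)).card ≤ (T R α n).ncard := by
    rw [← Set.ncard_coe_finset]
    exact Set.ncard_le_ncard hsub (T_finite R hR α n)
  calc 2 ^ (n / r) ≤ S.card := hScard
    _ ≤ π.natDegree * (S.image (fun x => π.eval x)).card := hcard1
    _ ≤ π.natDegree * (T R α n).ncard := Nat.mul_le_mul_left _ hcard2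

theorem low53 (hInj : StInj) : StLow := by
  intro F _ _ R r π L hS α hNC
  have hr : 0 < r := hS.1
  have hπ : 0 < π.natDegree := hS.2.1
  have hr' : (0 : ℝ) < r := by exact_mod_cast hr
  have hπ' : (0 : ℝ) < π.natDegree := by exact_mod_cast hπ
  have hlog : 0 < Real.log 2 := Real.log_pos (by norm_num)
  refine ⟨Real.log 2 / (2 * r), by positivity, ?_⟩
  have hev : ∀ᶠ n : ℕ in Filter.atTop,
      (Real.log π.natDegree + Real.log 2) * (2 * r) / Real.log 2 ≤ (n : ℝ) :=
    (tendsto_natCast_atTop_atTop).eventually_ge_atTop _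
  filter_upwards [hev] with n hn
  have hcore := low_core hInj R r π L hS α hNC n
  have hcore' : (2 : ℝ) ^ (n / r) ≤ (π.natDegree : ℝ) * ((T R α n).ncard : ℝ) := by
    exact_mod_cast hcore
  have hn2 : Real.log π.natDegree + Real.log 2 ≤ Real.log 2 / (2 * r) * n := by
    rw [div_le_iff₀ hlog] at hn
    have h1 : Real.log 2 / (2 * r) * n = (n * Real.log 2) / (2 * r) := by ring
    rw [h1, le_div_iff₀ (by positivity)]
    exact hn
  have hfloor : (n : ℝ) / r - 1 ≤ ((n / r : ℕ) : ℝ) := by
    have h1 : n < r * (n / r + 1) := Nat.lt_mul_div_succ n hr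
    have h2 : (n : ℝ) < r * (((n / r : ℕ) : ℝ) + 1) := by exact_mod_cast h1
    have h3 : (n : ℝ) / r < ((n / r : ℕ) : ℝ) + 1 := by
      rw [div_lt_iff₀ hr']
      linarith
    linarith
  have hexp : (π.natDegree : ℝ) * Real.exp (Real.log 2 / (2 * r) * n) ≤ (2 : ℝ) ^ (n / r) := by
    have h1 : (π.natDegree : ℝ) = Real.exp (Real.log π.natDegree) := (Real.exp_log hπ').symm
    have h2 : (2 : ℝ) ^ (n / r) = Real.exp (Real.log 2 * ((n / r : ℕ) : ℝ)) := by
      rw [Real.exp_mul, Real.exp_log (by norm_num), Real.rpow_natCast]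
    rw [h2]
    nth_rewrite 1 [h1]
    rw [← Real.exp_add]
    apply Real.exp_le_exp.mpr
    have h3 : Real.log 2 * ((n : ℝ) / r - 1) ≤ Real.log 2 * ((n / r : ℕ) : ℝ) :=
      mul_le_mul_of_nonneg_left hfloor hlog.le
    have h4 : Real.log 2 * ((n : ℝ) / r - 1) =
        2 * (Real.log 2 / (2 * r) * n) - Real.log 2 := by
      field_simp
    rw [h4] at h3
    linarith
  have h5 : (π.natDegree : ℝ) * Real.exp (Real.log 2 / (2 * r) * n) ≤
      (π.natDegree : ℝ) * ((T R α n).ncard : ℝ) := hexp.trans hcore'
  exact le_of_mul_le_mul_left h5 hπ'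

end Pool.Agent.Lib.MP_02170e_nt.DA.L53
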