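import Mathlib
import Pool.Agent.Lib.MP_02170e_nt.Low53

/-!
Row INJ: if the map above is injective, the levels are bounded.
-/

set_option autoImplicit false

open Polynomial

namespace Pool.Agent.Lib.MP_02170e_nt.DA.I53

open L53

theorem inj53 : StInj := by
  intro F _ _ R r X0 p S D hr hR hmaps hsemi hfib hcompl hinj α
  classical
  -- iterates
  have hmapsk : ∀ k x, x ∈ X0 → S^[k] x ∈ X0 := by
    intro k
    induction k with
    | zero => intro x hx; exact hx
    | succ k ih =>
      intro x hx
      rw [Function.iterate_succ_apply]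
      exact ih _ (hmaps x hx)
  have hsemik : ∀ k x, x ∈ X0 → (fun y => aeval y R)^[r * k] (p x) = p (S^[k] x) := by
    intro k
    induction k with
    | zero => intro x _; simp
    | succ k ih =>
      intro x hx
      rw [Nat.mul_succ, Function.iterate_add_apply, ← aeval_iter R r, hsemi x hx,
        ih _ (hmaps x hx), Function.iterate_succ_apply]
  have hinjk : ∀ k, Set.InjOn (S^[k]) X0 := by
    intro k
    induction k with
    | zero => intro x _ y _ hxy; exact hxy
    | succ k ih =>
      intro x hx y hy hxy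
      rw [Function.iterate_succ_apply, Function.iterate_succ_apply] at hxy
      exact hinj hx hy (ih (hmaps x hx) (hmaps y hy) hxy)
  set B : ℕ := ∑ j ∈ Finset.range r, (T R α j).ncard with hB
  refine ⟨D * B + (p '' X0)ᶜ.ncard, ?_⟩
  rintro _ ⟨n, rfl⟩
  have hjr : n % r < r := Nat.mod_lt n hr
  have hBj : (T R α (n % r)).ncard ≤ B :=
    Finset.single_le_sum (f := fun j => (T R α j).ncard) (fun j _ => Nat.zero_le _)
      (Finset.mem_range.mpr hjr)
  have hTj := T_finite R hR α (n % r)
  have hTn := T_finite R hR α n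
  -- the finite set of the points of `X0` above
  let Q : Finset (AlgebraicClosure F) := hTj.toFinset.biUnion fun y => (hfib y).1.toFinset
  have hQcard : Q.card ≤ (T R α (n % r)).ncard * D := by
    rw [Set.ncard_eq_toFinset_card _ hTj]
    apply Finset.card_biUnion_le_card_mul
    intro y _
    have h1 := (hfib y).2
    rwa [Set.ncard_eq_toFinset_card _ (hfib y).1] at h1
  -- `T n` is covered by the image of a set injecting into `Q`
  have hcover : ((hTn.toFinset.filter (fun y => y ∈ p '' X0)).card) ≤ Q.card := by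
    have hch : ∀ y, ∃ x, y ∈ p '' X0 → (x ∈ X0 ∧ p x = y) := by
      intro y
      by_cases h : y ∈ p '' X0
      · obtain ⟨x, hx, hxy⟩ := h
        exact ⟨x, fun _ => ⟨hx, hxy⟩⟩
      · exact ⟨0, fun h' => absurd h' h⟩
    choose c hc using hch
    apply Finset.card_le_card_of_injOn (fun y => S^[n / r] (c y))
    · intro y hy
      have hy' := Finset.mem_filter.mp (Finset.mem_coe.mp hy)
      obtain ⟨hcX, hcp⟩ := hc y hy'.2
      have hyT : y ∈ T R α n := hTn.mem_toFinset.mp hy'.1
      rw [mem_T] at hyT
      have hn : n = n % r + r * (n / r) := (Nat.mod_add_div n r).symm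
      rw [hn, Function.iterate_add_apply, ← hcp, hsemik _ _ hcX] at hyT
      refine Finset.mem_coe.mpr (Finset.mem_biUnion.mpr ⟨p (S^[n / r] (c y)), ?_, ?_⟩)
      · rw [hTj.mem_toFinset, mem_T]
        exact hyT
      · rw [(hfib _).1.mem_toFinset]
        exact ⟨hmapsk _ _ hcX, rfl⟩
    · intro y hy y' hy' hyy
      have h1 := Finset.mem_filter.mp (Finset.mem_coe.mp hy)
      have h2 := Finset.mem_filter.mp (Finset.mem_coe.mp hy')
      obtain ⟨hcX, hcp⟩ := hc y h1.2
      obtain ⟨hcX', hcp'⟩ := hc y' h2.2
      have h3 := hinjk _ hcX hcX' hyy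
      rw [← hcp, ← hcp', h3]
  have hrest : ((hTn.toFinset.filter (fun y => ¬ y ∈ p '' X0)).card) ≤ (p '' X0)ᶜ.ncard := by
    rw [← Set.ncard_coe_finset]
    apply Set.ncard_le_ncard _ hcompl
    intro y hy
    exact (Finset.mem_filter.mp (Finset.mem_coe.mp hy)).2
  show (T R α n).ncard ≤ _
  calc (T R α n).ncard = hTn.toFinset.card := Set.ncard_eq_toFinset_card _ hTn
    _ = (hTn.toFinset.filter (fun y => y ∈ p '' X0)).card +
        (hTn.toFinset.filter (fun y => ¬ y ∈ p '' X0)).card :=
          (Finset.card_filter_add_card_filter_not _).symm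
    _ ≤ Q.card + (p '' X0)ᶜ.ncard := Nat.add_le_add hcover hrest
    _ ≤ (T R α (n % r)).ncard * D + (p '' X0)ᶜ.ncard := Nat.add_le_add_right hQcard _
    _ ≤ D * B + (p '' X0)ᶜ.ncard := by
        rw [mul_comm]
        exact Nat.add_le_add_right (Nat.mul_le_mul_left _ hBj) _

end Pool.Agent.Lib.MP_02170e_nt.DA.I53
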