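import Pool.Agent.Lib.MP_02170e_nt.Up58

/-!
Row INJ: an injective map above gives bounded levels.
-/

set_option autoImplicit false

open Polynomial

namespace Pool.Agent.Lib.MP_02170e_nt.DA

lemma semi_iter_set {F : Type} [Field F] {R : F[X]} {r : ℕ} {X0 : Set (AlgebraicClosure F)}
    {p S : AlgebraicClosure F → AlgebraicClosure F} (hS : ∀ x ∈ X0, S x ∈ X0)
    (h : ∀ x ∈ X0, aeval (p x) (R.comp^[r] X) = p (S x)) (k : ℕ) :
    ∀ x ∈ X0, S^[k] x ∈ X0 ∧ (fun y => aeval y R)^[r * k] (p x) = p (S^[k] x) := by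
  induction k with
  | zero => intro x hx; exact ⟨hx, rfl⟩
  | succ k ih =>
    intro x hx
    have h1 := ih (S x) (hS x hx)
    refine ⟨h1.1, ?_⟩
    rw [Function.iterate_succ_apply, ← h1.2, ← h x hx, aeval_iter, ← Function.iterate_add_apply,
      mul_add, mul_one]

theorem inj58 : StInj := by
  classical
  intro F _ _ R r X0 p S D hr hR hS hsemi hfib hcomp hinj α
  have hP : ∀ j, {x | x ∈ X0 ∧ p x ∈ T R α j}.Finite := by
    intro j
    refine ((T_finite R hR α j).biUnion (t := fun y => {x | x ∈ X0 ∧ p x = y})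
      (fun y _ => (hfib y).1)).subset ?_
    rintro x ⟨hx, hx'⟩
    rw [Set.mem_iUnion₂]
    exact ⟨p x, hx', hx, rfl⟩
  refine ⟨(p '' X0)ᶜ.ncard + ∑ j ∈ Finset.range r, {x | x ∈ X0 ∧ p x ∈ T R α j}.ncard, ?_⟩
  rintro _ ⟨n, rfl⟩
  set k := n / r with hk
  set j := n % r with hj
  have hnk : n = j + r * k := by rw [hk, hj, add_comm]; exact (Nat.div_add_mod n r).symm
  have hjr : j ∈ Finset.range r := Finset.mem_range.mpr (Nat.mod_lt _ hr)
  have hQf : {x | x ∈ X0 ∧ S^[k] x ∈ {x | x ∈ X0 ∧ p x ∈ T R α j}}.Finite := by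
    refine Set.Finite.of_finite_image (f := S^[k]) ((hP j).subset ?_) ?_
    · rintro _ ⟨x, hx, rfl⟩
      exact hx.2
    · exact (hinj.iterate hS k).mono fun x hx => hx.1
  have hQ : {x | x ∈ X0 ∧ S^[k] x ∈ {x | x ∈ X0 ∧ p x ∈ T R α j}}.ncard ≤
      {x | x ∈ X0 ∧ p x ∈ T R α j}.ncard := by
    refine Set.ncard_le_ncard_of_injOn (S^[k]) (fun x hx => hx.2)
      ((hinj.iterate hS k).mono fun x hx => hx.1) (hP j)
  have hsub : T R α n ⊆ (p '' X0)ᶜ ∪
      p '' {x | x ∈ X0 ∧ S^[k] x ∈ {x | x ∈ X0 ∧ p x ∈ T R α j}} := by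
    intro y hy
    by_cases hyi : y ∈ p '' X0
    · right
      obtain ⟨x, hx, rfl⟩ := hyi
      have h1 := semi_iter_set hS hsemi k x hx
      refine ⟨x, ⟨hx, h1.1, ?_⟩, rfl⟩
      rw [← h1.2, T, Set.mem_ofPred_eq, aeval_iter, ← Function.iterate_add_apply, ← hnk,
        ← aeval_iter]
      exact hy
    · left
      exact hyi
  calc (T R α n).ncard ≤ ((p '' X0)ᶜ ∪
        p '' {x | x ∈ X0 ∧ S^[k] x ∈ {x | x ∈ X0 ∧ p x ∈ T R α j}}).ncard :=
        Set.ncard_le_ncard hsub (hcomp.union (hQf.image _))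
    _ ≤ (p '' X0)ᶜ.ncard +
        (p '' {x | x ∈ X0 ∧ S^[k] x ∈ {x | x ∈ X0 ∧ p x ∈ T R α j}}).ncard :=
        Set.ncard_union_le _ _
    _ ≤ (p '' X0)ᶜ.ncard + ∑ j ∈ Finset.range r, {x | x ∈ X0 ∧ p x ∈ T R α j}.ncard := by
        refine Nat.add_le_add_left ((Set.ncard_image_le hQf).trans (hQ.trans ?_)) _
        exact Finset.single_le_sum (f := fun j => {x | x ∈ X0 ∧ p x ∈ T R α j}.ncard)
          (fun _ _ => Nat.zero_le _) hjr

end Pool.Agent.Lib.MP_02170e_nt.DA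

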