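import Pool.Agent.Lib.MP_02170e_nt.Defs58

/-!
# Row LIN (helper 23): linear growth in the additive case, from UP and LOW
-/

set_option autoImplicit false

open Polynomial

namespace Pool.Agent.Lib.MP_02170e_nt.DA.Lin23

section
variable {F : Type} [Field F]

lemma natDegree_pos_of_NC (R : F[X]) (α : AlgebraicClosure F) (h : NC R α) :
    0 < R.natDegree := by
  by_contra hcon
  have h0 : R.natDegree = 0 := by omega
  apply h
  refine ⟨1, ?_⟩
  rintro _ ⟨n, rfl⟩
  rcases n with _ | n
  · show (T R α 0).ncard ≤ 1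
    have : T R α 0 = {α} := by
      ext x
      simp [T]
    rw [this, Set.ncard_singleton]
  · show (T R α (n + 1)).ncard ≤ 1
    obtain ⟨c, hc⟩ : ∃ c, R = C c := ⟨_, eq_C_of_natDegree_eq_zero h0⟩
    have h1 : R.comp^[n + 1] X = C c := by
      rw [Function.iterate_succ_apply', hc, C_comp]
    by_cases h2 : algebraMap F (AlgebraicClosure F) c = α
    · have : T R α (n + 1) = Set.univ := by
        ext x
        simp [T, h1, h2]
      rw [this, Set.ncard_univ, Nat.card_eq_zero_of_infinite]
      omega
    · have : T R α (n + 1) = ∅ := by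
        ext x
        simp [T, h1, h2]
      rw [this, Set.ncard_empty]
      omega

lemma T_finite (R : F[X]) (hR : 0 < R.natDegree) (α : AlgebraicClosure F) (n : ℕ) :
    (T R α n).Finite := by
  classical
  set P : (AlgebraicClosure F)[X] :=
    (R.comp^[n] X).map (algebraMap F (AlgebraicClosure F)) - C α with hP
  have hdeg : 0 < (R.comp^[n] X : F[X]).natDegree := by
    rw [natDegree_iterate_comp, natDegree_X, mul_one]
    exact pow_pos hR n
  have hP0 : P ≠ 0 := by
    intro h
    have h1 : P.natDegree = (R.comp^[n] X : F[X]).natDegree := by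
      rw [hP, natDegree_sub_C, natDegree_map]
    rw [h, natDegree_zero] at h1
    omega
  refine (P.roots.toFinset.finite_toSet).subset fun x hx => ?_
  rw [T, Set.mem_ofPred_eq] at hx
  rw [Finset.mem_coe, Multiset.mem_toFinset, mem_roots hP0, IsRoot, hP, eval_sub, eval_C,
    eval_map_algebraMap, hx, sub_self]

lemma comp_ne_zero' (f R : F[X]) (hf : f ≠ 0) (hR : 0 < R.natDegree) (n : ℕ) :
    f.comp (R.comp^[n] X) ≠ 0 := by
  rw [Ne, comp_eq_zero_iff]
  rintro (h | ⟨-, h⟩)
  · exact hf h
  · have h1 : (R.comp^[n] X : F[X]).natDegree = 0 := by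
      rw [h]
      exact natDegree_C _
    rw [natDegree_iterate_comp, natDegree_X, mul_one] at h1
    exact absurd h1 (pow_pos hR n).ne'

lemma le_M (f R : F[X]) (hf : f ≠ 0) (hR : 0 < R.natDegree) (α : AlgebraicClosure F)
    (hα : aeval α f = 0) (n : ℕ)
    {x : AlgebraicClosure F} (hx : x ∈ T R α n) : (minpoly F x).natDegree ≤ M f R n := by
  have hint : IsIntegral F x := Algebra.IsIntegral.isIntegral x
  have hne := comp_ne_zero' f R hf hR n
  refine le_csSup ⟨(f.comp (R.comp^[n] X)).natDegree, ?_⟩ ?_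
  · rintro _ ⟨g, -, hg, rfl⟩
    exact natDegree_le_of_dvd hg hne
  · refine ⟨minpoly F x, minpoly.irreducible hint, minpoly.dvd F x ?_, rfl⟩
    rw [aeval_comp]
    rw [T, Set.mem_ofPred_eq] at hx
    rw [hx, hα]

variable [Finite F]

lemma card_gt : 1 < Nat.card F := Finite.one_lt_card

/-- points of degree `d` are fixed by the `d`-th power of the Frobenius map -/
lemma frob_fix (x : AlgebraicClosure F) :
    x ^ (Nat.card F ^ (minpoly F x).natDegree) = x := by
  have hint : IsIntegral F x := Algebra.IsIntegral.isIntegral x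
  have h := (minpoly.irreducible hint).natDegree_dvd_iff_dvd_X_pow_card_pow_sub_X.1
    (dvd_refl (minpoly F x).natDegree)
  obtain ⟨w, hw⟩ := h
  have h2 := congrArg (aeval x) hw
  rw [map_mul, minpoly.aeval, zero_mul, map_sub, map_pow, aeval_X, sub_eq_zero] at h2
  exact h2

/-- degree bound -/
lemma deg_le (g : F[X]) (hg : Irreducible g) (y : AlgebraicClosure F) (hy : aeval y g = 0)
    (N : ℕ) (hN : 0 < N) (h : y ^ (Nat.card F ^ N) = y) : g.natDegree ≤ N := by
  have hd : g ∣ X ^ (Nat.card F) ^ N - X := by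
    have h1 : minpoly F y ∣ g := minpoly.dvd F y hy
    have hint : IsIntegral F y := Algebra.IsIntegral.isIntegral y
    have h2 : Associated (minpoly F y) g :=
      (minpoly.irreducible hint).associated_of_dvd hg h1
    refine h2.symm.dvd.trans (minpoly.dvd F y ?_)
    rw [map_sub, map_pow, aeval_X, h, sub_self]
  exact Nat.le_of_dvd hN (hg.natDegree_dvd_of_dvd_X_pow_card_pow_sub_X hd)

/-- number of points fixed by the `d`-th power of the Frobenius map -/
lemma fix_card (d : ℕ) (hd : 0 < d) :
    {x : AlgebraicClosure F | x ^ (Nat.card F ^ d) = x}.Finite ∧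
    {x : AlgebraicClosure F | x ^ (Nat.card F ^ d) = x}.ncard ≤ Nat.card F ^ d := by
  classical
  have hne : (X ^ (Nat.card F) ^ d - X : (AlgebraicClosure F)[X]) ≠ 0 :=
    FiniteField.X_pow_card_pow_sub_X_ne_zero _ hd.ne' card_gt
  have hdeg : (X ^ (Nat.card F) ^ d - X : (AlgebraicClosure F)[X]).natDegree =
      (Nat.card F) ^ d := FiniteField.X_pow_card_pow_sub_X_natDegree_eq _ hd.ne' card_gt
  have hs : {x : AlgebraicClosure F | x ^ (Nat.card F ^ d) = x} =
      ((X ^ (Nat.card F) ^ d - X : (AlgebraicClosure F)[X]).roots.toFinset :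
        Set (AlgebraicClosure F)) := by
    ext x
    rw [Finset.mem_coe, Multiset.mem_toFinset, mem_roots hne, IsRoot, eval_sub, eval_pow, eval_X,
      sub_eq_zero, Set.mem_ofPred_eq]
  rw [hs]
  refine ⟨Finset.finite_toSet _, ?_⟩
  rw [Set.ncard_coe_finset]
  exact (Multiset.toFinset_card_le _).trans ((card_roots' _).trans hdeg.le)

/-- a finite set of points of degree at most `m` -/
lemma count (s : Set (AlgebraicClosure F)) (m : ℕ)
    (hs : ∀ x ∈ s, (minpoly F x).natDegree ≤ m) : s.ncard ≤ Nat.card F ^ (m + 1) := by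
  classical
  have hq : 1 < Nat.card F := card_gt
  have key : ∀ m : ℕ, {x : AlgebraicClosure F | (minpoly F x).natDegree ≤ m}.Finite ∧
      {x : AlgebraicClosure F | (minpoly F x).natDegree ≤ m}.ncard + 1 ≤
        Nat.card F ^ (m + 1) := by
    intro m
    induction m with
    | zero =>
      have : {x : AlgebraicClosure F | (minpoly F x).natDegree ≤ 0} = ∅ := by
        ext x
        simp only [Set.mem_ofPred_eq, Set.mem_empty_iff_false, iff_false, not_le]
        exact minpoly.natDegree_pos (Algebra.IsIntegral.isIntegral x)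
      rw [this, Set.ncard_empty]
      exact ⟨Set.finite_empty, by simpa using hq.le⟩
    | succ m ih =>
      have hsub : {x : AlgebraicClosure F | (minpoly F x).natDegree ≤ m + 1} ⊆
          {x : AlgebraicClosure F | (minpoly F x).natDegree ≤ m} ∪
            {x : AlgebraicClosure F | x ^ (Nat.card F ^ (m + 1)) = x} := by
        intro x hx
        rw [Set.mem_ofPred_eq] at hx
        rcases hx.eq_or_lt with h | h
        · right
          rw [Set.mem_ofPred_eq, ← h]
          exact frob_fix x
        · left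
          rw [Set.mem_ofPred_eq]
          omega
      obtain ⟨h1, h2⟩ := fix_card (F := F) (m + 1) (by omega)
      have hfin := (ih.1.union h1).subset hsub
      refine ⟨hfin, ?_⟩
      have h3 := Set.ncard_le_ncard hsub (ih.1.union h1)
      have h4 := Set.ncard_union_le {x : AlgebraicClosure F | (minpoly F x).natDegree ≤ m}
            {x : AlgebraicClosure F | x ^ (Nat.card F ^ (m + 1)) = x}
      have h5 : Nat.card F ^ (m + 1) + Nat.card F ^ (m + 1) ≤ Nat.card F ^ (m + 1 + 1) := by
        rw [pow_succ (Nat.card F) (m + 1)]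
        nlinarith [Nat.one_le_pow (m + 1) (Nat.card F) (by omega)]
      have h6 := ih.2
      omega
  have h7 : s ⊆ {x : AlgebraicClosure F | (minpoly F x).natDegree ≤ m} := fun x hx => hs x hx
  have h8 := Set.ncard_le_ncard h7 (key m).1
  have h9 := (key m).2
  omega

end

theorem lin23 (hUp : StUp) (hLow : StLow) : StLin := by
  intro F _ _ R f r π L hS hf α hα hNC
  have hR := natDegree_pos_of_NC R α hNC
  obtain ⟨C0, hC0⟩ := hUp F R f r π L hS hR hf
  obtain ⟨c, hc, hlow⟩ := hLow F R r π L hS α hNC
  have hq : 1 < Nat.card F := card_gt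
  have hqR : (1 : ℝ) < (Nat.card F : ℝ) := by exact_mod_cast hq
  have hlog : 0 < Real.log (Nat.card F) := Real.log_pos hqR
  refine ⟨c / (2 * Real.log (Nat.card F)), 2 * C0, by positivity, ?_⟩
  obtain ⟨N, hN⟩ := exists_nat_ge (2 * Real.log (Nat.card F) / c)
  filter_upwards [hlow, Filter.eventually_ge_atTop N, Filter.eventually_ge_atTop 1] with n h1 h2 h3
  refine ⟨?_, ?_⟩
  · have h4 : (T R α n).ncard ≤ Nat.card F ^ (M f R n + 1) :=
      count _ _ fun x hx => le_M f R hf hR α hα n hx
    have h5 : Real.exp (c * n) ≤ (Nat.card F : ℝ) ^ (M f R n + 1) := by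
      refine h1.trans ?_
      exact_mod_cast h4
    have h6 := Real.log_le_log (Real.exp_pos _) h5
    rw [Real.log_exp, Real.log_pow] at h6
    have h7 : 2 * Real.log (Nat.card F) / c ≤ n := hN.trans (by exact_mod_cast h2)
    rw [div_le_iff₀ hc] at h7
    rw [div_mul_eq_mul_div, div_le_iff₀ (by positivity)]
    push_cast at h6
    nlinarith
  · have h4 : M f R n ≤ C0 * (n + 1) := by
      refine csSup_le' ?_
      rintro _ ⟨g, hg, hgd, rfl⟩
      have hdeg : 0 < g.natDegree := hg.natDegree_pos
      obtain ⟨y, hy⟩ := IsAlgClosed.exists_aeval_eq_zero (AlgebraicClosure F) g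
        (natDegree_pos_iff_degree_pos.mp hdeg).ne'
      have h5 : aeval y (f.comp (R.comp^[n] X)) = 0 := by
        obtain ⟨w, hw⟩ := hgd
        rw [hw, map_mul, hy, zero_mul]
      rw [aeval_comp] at h5
      obtain ⟨N', hN0, hN1, hN2⟩ := hC0 n _ h5 y rfl
      exact (deg_le g hg y hy N' hN0 hN2).trans hN1
    have h5 : (M f R n : ℝ) ≤ C0 * (n + 1) := by exact_mod_cast h4
    have h6 : (1 : ℝ) ≤ n := by exact_mod_cast h3
    have h7 : (0 : ℝ) ≤ C0 := Nat.cast_nonneg C0
    nlinarith

end Pool.Agent.Lib.MP_02170e_nt.DA.Lin23
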