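import Pool.Agent.Lib.MP_02170e_nt.Up58

/-!
Row LIN: linear growth of the largest degree in the additive case.
-/

set_option autoImplicit false

open Polynomial

namespace Pool.Agent.Lib.MP_02170e_nt.DA

namespace Lin45

section

variable {F : Type} [Field F]

/-- a polynomial with a non-critical point is not constant -/
lemma R_pos {R : F[X]} {α : AlgebraicClosure F} (h : NC R α) : 0 < R.natDegree := by
  by_contra h0
  have h0 : R.natDegree = 0 := by omega
  apply h
  refine ⟨1, ?_⟩
  rintro _ ⟨n, rfl⟩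
  obtain ⟨a, ha⟩ := natDegree_eq_zero.1 h0
  cases n with
  | zero =>
    have : T R α 0 = {α} := by
      ext x
      simp [T]
    simp only [this, Set.ncard_singleton, le_refl]
  | succ n =>
    have h1 : R.comp^[n + 1] X = C a := by
      rw [Function.iterate_succ_apply', ← ha, C_comp]
    by_cases hh : algebraMap F (AlgebraicClosure F) a = α
    · have : T R α (n + 1) = Set.univ := by
        ext x
        simp [T, h1, hh]
      simp only [this]
      rw [Set.Infinite.ncard Set.infinite_univ]
      omega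
    · have : T R α (n + 1) = ∅ := by
        ext x
        simp [T, h1, hh]
      simp only [this, Set.ncard_empty]
      omega

lemma iter_deg (R : F[X]) (hR : 0 < R.natDegree) (n : ℕ) : 0 < (R.comp^[n] X).natDegree := by
  rw [natDegree_iterate_comp, natDegree_X, mul_one]
  exact pow_pos hR n

lemma comp_ne {R f : F[X]} (hR : 0 < R.natDegree) (hf : f ≠ 0) (n : ℕ) :
    f.comp (R.comp^[n] X) ≠ 0 := by
  intro h
  rcases comp_eq_zero_iff.1 h with h1 | ⟨-, h2⟩
  · exact hf h1
  · have h3 := iter_deg R hR n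
    rw [h2, natDegree_C] at h3
    exact lt_irrefl _ h3

lemma le_M {R f : F[X]} (hR : 0 < R.natDegree) (hf : f ≠ 0) (n : ℕ) {g : F[X]}
    (hg : Irreducible g) (hd : g ∣ f.comp (R.comp^[n] X)) : g.natDegree ≤ M f R n := by
  refine le_csSup ⟨(f.comp (R.comp^[n] X)).natDegree, ?_⟩ ⟨g, hg, hd, rfl⟩
  rintro d ⟨g', -, hd', rfl⟩
  exact natDegree_le_of_dvd hd' (comp_ne hR hf n)

lemma M_le {R f : F[X]} {n B : ℕ} (h : ∀ g : F[X], Irreducible g →
    g ∣ f.comp (R.comp^[n] X) → g.natDegree ≤ B) : M f R n ≤ B := by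
  refine csSup_le' ?_
  rintro d ⟨g, hg, hd, rfl⟩
  exact h g hg hd

lemma aeval_zero {R f : F[X]} {α : AlgebraicClosure F} (hα : aeval α f = 0) {n : ℕ}
    {x : AlgebraicClosure F} (hx : x ∈ T R α n) : aeval x (f.comp (R.comp^[n] X)) = 0 := by
  rw [aeval_comp]
  have : aeval x (R.comp^[n] X) = α := hx
  rw [this, hα]

end

section

variable {F : Type} [Field F] [Finite F]

/-- the number of elements of small degree -/
lemma card_T {R f : F[X]} (hR : 0 < R.natDegree) (hf : f ≠ 0) {α : AlgebraicClosure F}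
    (hα : aeval α f = 0) (n : ℕ) : (T R α n).ncard ≤ Nat.card F ^ (M f R n + 1) := by
  classical
  set q := Nat.card F with hq
  have hq1 : 1 < q := Finite.one_lt_card
  set m := M f R n with hm
  set S : Finset (AlgebraicClosure F) := (Finset.Icc 1 m).biUnion fun d =>
    (X ^ (q ^ d) - X : (AlgebraicClosure F)[X]).roots.toFinset with hS
  have hne : ∀ d, 1 ≤ d → (X ^ (q ^ d) - X : (AlgebraicClosure F)[X]) ≠ 0 ∧
      (X ^ (q ^ d) - X : (AlgebraicClosure F)[X]).natDegree = q ^ d := by
    intro d hd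
    have h1 : 1 < q ^ d := Nat.one_lt_pow (by omega) hq1
    exact ⟨FiniteField.X_pow_card_sub_X_ne_zero _ h1, FiniteField.X_pow_card_sub_X_natDegree_eq _ h1⟩
  have hsub : T R α n ⊆ (S : Set (AlgebraicClosure F)) := by
    intro x hx
    have hint : IsIntegral F x := Algebra.IsIntegral.isIntegral x
    have h1 : (minpoly F x).natDegree ≤ m :=
      le_M hR hf n (minpoly.irreducible hint) (minpoly.dvd F x (aeval_zero hα hx))
    have h2 : 0 < (minpoly F x).natDegree := minpoly.natDegree_pos hint
    rw [Finset.mem_coe, hS, Finset.mem_biUnion]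
    refine ⟨(minpoly F x).natDegree, Finset.mem_Icc.2 ⟨h2, h1⟩, ?_⟩
    rw [Multiset.mem_toFinset, mem_roots (hne _ h2).1, IsRoot, eval_sub, eval_pow, eval_X,
      frob_fix, sub_self]
  calc (T R α n).ncard ≤ S.card := by
        rw [← Set.ncard_coe_finset]
        exact Set.ncard_le_ncard hsub (Finset.finite_toSet _)
    _ ≤ ∑ d ∈ Finset.Icc 1 m, (X ^ (q ^ d) - X : (AlgebraicClosure F)[X]).roots.toFinset.card :=
        Finset.card_biUnion_le
    _ ≤ ∑ d ∈ Finset.Icc 1 m, q ^ d := by
        refine Finset.sum_le_sum fun d hd => ?_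
        have hd1 := (Finset.mem_Icc.1 hd).1
        calc (X ^ (q ^ d) - X : (AlgebraicClosure F)[X]).roots.toFinset.card
            ≤ Multiset.card (X ^ (q ^ d) - X : (AlgebraicClosure F)[X]).roots :=
              Multiset.toFinset_card_le _
          _ ≤ (X ^ (q ^ d) - X : (AlgebraicClosure F)[X]).natDegree := card_roots' _
          _ = q ^ d := (hne d hd1).2
    _ ≤ q ^ (m + 1) := by
        refine (Nat.geomSum_lt hq1 ?_).le
        intro k hk
        have := (Finset.mem_Icc.1 hk).2
        omega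

lemma deg_le {g : F[X]} (hg : Irreducible g) {y : AlgebraicClosure F} (hy : aeval y g = 0)
    {N : ℕ} (hN : 0 < N) (hf : y ^ (Nat.card F ^ N) = y) : g.natDegree ≤ N := by
  have hint : IsIntegral F y := Algebra.IsIntegral.isIntegral y
  have h1 : minpoly F y ∣ X ^ (Nat.card F) ^ N - X := by
    refine minpoly.dvd F y ?_
    rw [map_sub, map_pow, aeval_X, hf, sub_self]
  have h2 : (minpoly F y).natDegree ∣ N :=
    (minpoly.irreducible hint).natDegree_dvd_of_dvd_X_pow_card_pow_sub_X h1
  have h3 : Associated (minpoly F y) g :=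
    (minpoly.irreducible hint).associated_of_dvd hg (minpoly.dvd F y hy)
  have h4 : (minpoly F y).natDegree = g.natDegree := natDegree_eq_of_degree_eq
    (degree_eq_degree_of_associated h3)
  rw [← h4]
  exact Nat.le_of_dvd hN h2

end

end Lin45

open Lin45 in
/-- Row LIN. -/
theorem lin45 (up : StUp) (low : StLow) : StLin := by
  intro F _ _ R f r π L hS hf α hα hNC
  have hR := R_pos hNC
  obtain ⟨c, hc, h1⟩ := low F R r π L hS α hNC
  obtain ⟨C, h2⟩ := up F R f r π L hS hR hf
  set q := Nat.card F with hq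
  have hq1 : 1 < q := Finite.one_lt_card
  have hlog : 0 < Real.log q := Real.log_pos (by exact_mod_cast hq1)
  refine ⟨c / (2 * Real.log q), 2 * C, by positivity, ?_⟩
  filter_upwards [h1, Filter.eventually_ge_atTop 1,
    Filter.eventually_ge_atTop ⌈2 * Real.log q / c⌉₊] with n hn hn1 hn2
  constructor
  · have h3 := card_T hR hf hα n
    have h4 : Real.exp (c * n) ≤ (q : ℝ) ^ (M f R n + 1) := by
      refine hn.trans ?_
      exact_mod_cast h3
    have h5 : c * n ≤ (M f R n + 1 : ℕ) * Real.log q := by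
      have := Real.log_le_log (Real.exp_pos _) h4
      rwa [Real.log_exp, Real.log_pow] at this
    push_cast at h5
    have h6 : 2 * Real.log q / c ≤ n := (Nat.le_ceil _).trans (by exact_mod_cast hn2)
    rw [div_le_iff₀ hc] at h6
    rw [div_mul_eq_mul_div, div_le_iff₀ (by positivity)]
    nlinarith
  · have h3 : M f R n ≤ C * (n + 1) := by
      refine M_le fun g hg hd => ?_
      obtain ⟨y, hy⟩ := IsAlgClosed.exists_aeval_eq_zero (AlgebraicClosure F) g
        (degree_pos_of_irreducible hg).ne'
      have h4 : aeval y (f.comp (R.comp^[n] X)) = 0 := by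
        obtain ⟨k, hk⟩ := hd
        rw [hk, map_mul, hy, zero_mul]
      rw [aeval_comp] at h4
      obtain ⟨N, hN0, hN, hfix⟩ := h2 n (aeval y (R.comp^[n] X)) h4 y rfl
      exact (deg_le hg hy hN0 hfix).trans hN
    have h4 : (M f R n : ℝ) ≤ C * (n + 1) := by exact_mod_cast h3
    have h5 : (1 : ℝ) ≤ n := by exact_mod_cast hn1
    have h6 : (0 : ℝ) ≤ C := Nat.cast_nonneg _
    nlinarith

end Pool.Agent.Lib.MP_02170e_nt.DA
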