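import Pool.Agent.Lib.MP_02170e_nt.Defs58

/-!
# Row LOW: the levels grow exponentially (helper14)
-/

set_option autoImplicit false

open Polynomial

namespace Pool.Agent.Lib.MP_02170e_nt.DA

namespace Low14

section
variable {F : Type} [Field F]

/-- The map given by `R` on the closure. -/
noncomputable def ev (R : F[X]) (x : AlgebraicClosure F) : AlgebraicClosure F := aeval x R

theorem aeval_iter (R : F[X]) (n : ℕ) (x : AlgebraicClosure F) :
    aeval x (R.comp^[n] X) = (ev R)^[n] x := by
  induction n generalizing x with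
  | zero => simp
  | succ n ih =>
    rw [Function.iterate_succ_apply', aeval_comp, ih, Function.iterate_succ_apply']
    rfl

theorem mem_T {R : F[X]} {α : AlgebraicClosure F} {n : ℕ} {x : AlgebraicClosure F} :
    x ∈ T R α n ↔ (ev R)^[n] x = α := by
  show aeval x (R.comp^[n] X) = α ↔ _
  rw [aeval_iter]

/-- A nonconstant polynomial over an algebraically closed field takes every value. -/
theorem surj {K : Type} [Field K] [IsAlgClosed K] (p : K[X]) (hp : 0 < p.natDegree) (y : K) :
    ∃ x, p.eval x = y := by
  have h1 : (p - C y).natDegree = p.natDegree := natDegree_sub_C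
  obtain ⟨x, hx⟩ := IsAlgClosed.exists_root (p - C y) (by
    have h2 : 0 < (p - C y).degree := natDegree_pos_iff_degree_pos.1 (by rw [h1]; exact hp)
    exact h2.ne')
  refine ⟨x, ?_⟩
  rw [IsRoot.def, eval_sub, eval_C] at hx
  exact sub_eq_zero.1 hx

theorem fib {K : Type} [Field K] (p : K[X]) (hp : 0 < p.natDegree) (y : K) :
    {x | p.eval x = y}.Finite ∧ {x | p.eval x = y}.ncard ≤ p.natDegree := by
  classical
  have h1 : (p - C y).natDegree = p.natDegree := natDegree_sub_C
  have h0 : p - C y ≠ 0 := by
    intro h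
    rw [h, natDegree_zero] at h1
    omega
  have h2 : {x | p.eval x = y} = ((p - C y).roots.toFinset : Set K) := by
    ext x
    simp [h0, sub_eq_zero]
  rw [h2]
  refine ⟨Finset.finite_toSet _, ?_⟩
  rw [Set.ncard_coe_finset]
  exact (Multiset.toFinset_card_le _).trans ((card_roots' _).trans h1.le)

/-- If some level is large, then `R` is not constant. -/
theorem deg_pos {R : F[X]} {α : AlgebraicClosure F} (h : NC R α) : 0 < R.natDegree := by
  by_contra h0
  have h1 : R.natDegree = 0 := by omega
  apply h
  refine ⟨1, ?_⟩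
  rintro _ ⟨n, rfl⟩
  show (T R α n).ncard ≤ 1
  have hc : R = C (R.coeff 0) := eq_C_of_natDegree_eq_zero h1
  have hev : ∀ x y : AlgebraicClosure F, ev R x = ev R y := by
    intro x y
    unfold ev
    rw [hc, aeval_C, aeval_C]
  cases n with
  | zero =>
    have : T R α 0 = {α} := by
      ext x
      rw [mem_T]
      simp
    rw [this, Set.ncard_singleton]
  | succ n =>
    have hinf : (Set.univ : Set (AlgebraicClosure F)).Infinite := Set.infinite_univ
    by_cases hne : (T R α (n + 1)).Nonempty
    · obtain ⟨z, hz⟩ := hne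
      have : T R α (n + 1) = Set.univ := by
        ext x
        rw [mem_T, Function.iterate_succ_apply, hev x z, ← Function.iterate_succ_apply, ← mem_T]
        simp [hz]
      rw [this, hinf.ncard]
      exact Nat.zero_le _
    · rw [Set.not_nonempty_iff_eq_empty.1 hne, Set.ncard_empty]
      exact Nat.zero_le _

theorem ev_surj {R : F[X]} (hR : 0 < R.natDegree) : Function.Surjective (ev R) := by
  intro y
  obtain ⟨x, hx⟩ := surj (R.map (algebraMap F (AlgebraicClosure F))) (by rwa [natDegree_map]) y
  refine ⟨x, ?_⟩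
  rw [eval_map_algebraMap] at hx
  exact hx

theorem T_nonempty {R : F[X]} (hR : 0 < R.natDegree) (α : AlgebraicClosure F) (n : ℕ) :
    (T R α n).Nonempty := by
  obtain ⟨x, hx⟩ := (ev_surj hR).iterate n α
  exact ⟨x, mem_T.2 hx⟩

theorem iter_deg {R : F[X]} (hR : 0 < R.natDegree) (n : ℕ) :
    0 < (R.comp^[n] X).natDegree := by
  induction n with
  | zero => simp
  | succ n ih =>
    rw [Function.iterate_succ_apply', natDegree_comp]
    exact Nat.mul_pos hR ih

theorem T_finite {R : F[X]} (hR : 0 < R.natDegree) (α : AlgebraicClosure F) (n : ℕ) :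
    (T R α n).Finite := by
  have h := (fib ((R.comp^[n] X).map (algebraMap F (AlgebraicClosure F)))
    (by rw [natDegree_map]; exact iter_deg hR n) α).1
  have h2 : T R α n =
      {x | ((R.comp^[n] X).map (algebraMap F (AlgebraicClosure F))).eval x = α} := by
    ext x
    show aeval x (R.comp^[n] X) = α ↔ _
    rw [← eval_map_algebraMap]
    rfl
  rw [h2]
  exact h

theorem semi {R : F[X]} {r : ℕ} {π L : (AlgebraicClosure F)[X]} (h : SemiA R r π L)
    (s : AlgebraicClosure F) : (ev R)^[r] (π.eval s) = π.eval (L.eval s) := by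
  have h1 := congrArg (eval s) h.2.2.2
  rw [eval_comp, eval_comp, eval_map_algebraMap, aeval_iter] at h1
  exact h1

theorem semi_iter {R : F[X]} {r : ℕ} {π L : (AlgebraicClosure F)[X]} (h : SemiA R r π L)
    (k : ℕ) (s : AlgebraicClosure F) :
    (ev R)^[r * k] (π.eval s) = π.eval ((fun x => L.eval x)^[k] s) := by
  have h1 : Function.Semiconj (fun x => π.eval x) (fun x => L.eval x) ((ev R)^[r]) :=
    fun s => (semi h s).symm
  rw [Function.iterate_mul]
  exact ((h1.iterate_right k) s).symm

/-- The number of preimages under the iterates of `L`. -/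
theorem fib_pow {K : Type} [Field K] [IsAlgClosed K] (L : K[X]) (hL : 0 < L.natDegree)
    (hA : ∀ x y, L.eval (x + y) + L.eval 0 = L.eval x + L.eval y) (x0 : K) (h0 : x0 ≠ 0)
    (h1 : L.eval x0 = L.eval 0) (k : ℕ) : ∀ s : K, ∃ A : Finset K, 2 ^ k ≤ A.card ∧
      ∀ x ∈ A, (fun x => L.eval x)^[k] x = s := by
  classical
  induction k with
  | zero =>
    intro s
    exact ⟨{s}, by simp, by simp⟩
  | succ k ih =>
    intro s
    obtain ⟨A, hA1, hA2⟩ := ih s
    choose g hg using surj L hL
    refine ⟨A.image g ∪ A.image fun y => g y + x0, ?_, ?_⟩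
    · have hinj : Function.Injective g := fun a b hab => by rw [← hg a, ← hg b, hab]
      have hd : Disjoint (A.image g) (A.image fun y => g y + x0) := by
        rw [Finset.disjoint_left]
        intro x hx hx'
        obtain ⟨a, -, rfl⟩ := Finset.mem_image.1 hx
        obtain ⟨b, -, hb⟩ := Finset.mem_image.1 hx'
        have h2 : L.eval (g b + x0) = L.eval (g b) := by
          have := hA (g b) x0
          rw [h1] at this
          exact add_right_cancel this
        rw [hb, hg, hg] at h2
        rw [h2] at hb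
        exact h0 (by simpa using hb)
      rw [Finset.card_union_of_disjoint hd, Finset.card_image_of_injective _ hinj,
        Finset.card_image_of_injective _ (fun a b hab => hinj (by simpa using hab)), pow_succ]
      omega
    · intro x hx
      rw [Function.iterate_succ_apply]
      rcases Finset.mem_union.1 hx with hx | hx
      · obtain ⟨a, ha, rfl⟩ := Finset.mem_image.1 hx
        show (fun x => L.eval x)^[k] (L.eval (g a)) = s
        rw [hg]
        exact hA2 a ha
      · obtain ⟨a, ha, rfl⟩ := Finset.mem_image.1 hx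
        show (fun x => L.eval x)^[k] (L.eval (g a + x0)) = s
        have h2 : L.eval (g a + x0) = L.eval (g a) := by
          have := hA (g a) x0
          rw [h1] at this
          exact add_right_cancel this
        rw [h2, hg]
        exact hA2 a ha

end

end Low14

/-- Row LOW. -/
theorem low14 (hInj : StInj) : StLow := by
  intro F _ _ R r π L hS α hN
  classical
  have hR := Low14.deg_pos hN
  obtain ⟨hr, hπ, hAff, hcomp⟩ := hS
  have hS : SemiA R r π L := ⟨hr, hπ, hAff, hcomp⟩
  -- `L` is not constant
  have hL : 0 < L.natDegree := by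
    have h1 := congrArg natDegree hcomp
    rw [natDegree_comp, natDegree_comp, natDegree_map] at h1
    have h2 : 0 < (R.comp^[r] X).natDegree * π.natDegree :=
      Nat.mul_pos (Low14.iter_deg hR r) hπ
    rw [h1] at h2
    exact Nat.pos_of_mul_pos_left h2
  -- `L` is not injective
  have hni : ¬ Set.InjOn (fun x => L.eval x) (Set.univ : Set (AlgebraicClosure F)) := by
    intro hinj
    refine hN (hInj F R r Set.univ (fun x => π.eval x) (fun x => L.eval x) π.natDegree hr hR
      (fun x _ => Set.mem_univ _) (fun x _ => ?_) (fun y => ?_) ?_ hinj α)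
    · rw [Low14.aeval_iter]
      exact Low14.semi hS x
    · have h1 := Low14.fib π hπ y
      have h2 : {x | x ∈ (Set.univ : Set (AlgebraicClosure F)) ∧ π.eval x = y} =
          {x | π.eval x = y} := by
        ext x
        simp
      rw [h2]
      exact h1
    · have h1 : (fun x => π.eval x) '' (Set.univ : Set (AlgebraicClosure F)) = Set.univ := by
        rw [Set.image_univ]
        exact Set.range_eq_univ.2 (fun y => Low14.surj π hπ y)
      rw [h1, Set.compl_univ]
      exact Set.finite_empty
  obtain ⟨x0, hx0, hx0'⟩ : ∃ x0 : AlgebraicClosure F, x0 ≠ 0 ∧ L.eval x0 = L.eval 0 := by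
    by_contra hcon
    push Not at hcon
    apply hni
    intro x _ y _ hxy
    by_contra hne
    refine hcon (x - y) (sub_ne_zero.2 hne) ?_
    have h1 := hAff (x - y) y
    rw [sub_add_cancel] at h1
    have h2 : L.eval x = L.eval y := hxy
    rw [h2] at h1
    have h3 : L.eval y + L.eval 0 = L.eval (x - y) + L.eval y := h1
    rw [add_comm (L.eval y)] at h3
    exact (add_right_cancel h3).symm
  -- lower bound for every level
  have hlow : ∀ n : ℕ, 2 ^ (n / r) ≤ π.natDegree * (T R α n).ncard := by
    intro n
    obtain ⟨y, hy⟩ := Low14.T_nonempty hR α (n % r)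
    obtain ⟨s, hs⟩ := Low14.surj π hπ y
    obtain ⟨A, hA1, hA2⟩ := Low14.fib_pow L hL hAff x0 hx0 hx0' (n / r) s
    have hsub : ((A.image fun x => π.eval x : Finset _) : Set (AlgebraicClosure F)) ⊆ T R α n := by
      intro z hz
      obtain ⟨x, hx, rfl⟩ := Finset.mem_image.1 (Finset.mem_coe.1 hz)
      rw [Low14.mem_T, ← Nat.mod_add_div n r, Function.iterate_add_apply,
        Low14.semi_iter hS, hA2 x hx, hs]
      exact Low14.mem_T.1 hy
    have h1 : (A.image fun x => π.eval x).card ≤ (T R α n).ncard := by
      rw [← Set.ncard_coe_finset]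
      exact Set.ncard_le_ncard hsub (Low14.T_finite hR α n)
    have h2 : A.card ≤ π.natDegree * (A.image fun x => π.eval x).card := by
      refine Finset.card_le_mul_card_image A π.natDegree fun b _ => ?_
      obtain ⟨f1, f2⟩ := Low14.fib π hπ b
      refine le_trans ?_ f2
      rw [← Set.ncard_coe_finset]
      refine Set.ncard_le_ncard ?_ f1
      intro x hx
      exact (Finset.mem_filter.1 (Finset.mem_coe.1 hx)).2
    exact hA1.trans (h2.trans (Nat.mul_le_mul_left _ h1))
  -- conclusion
  have hr0 : (0 : ℝ) < r := by exact_mod_cast hr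
  refine ⟨Real.log 2 / (2 * r), by positivity, ?_⟩
  obtain ⟨E, hE⟩ : ∃ E : ℕ, π.natDegree ≤ 2 ^ E := ⟨π.natDegree, Nat.lt_two_pow_self.le⟩
  filter_upwards [Filter.eventually_ge_atTop (2 * r * (E + 1))] with n hn
  have h1 : ((2 : ℝ)) ^ (n / r) ≤ (2 : ℝ) ^ E * (T R α n).ncard := by
    have h2 := (hlow n).trans (Nat.mul_le_mul_right _ hE)
    exact_mod_cast h2
  have h2 : Real.exp (Real.log 2 / (2 * r) * n) = (2 : ℝ) ^ ((n : ℝ) / (2 * r)) := by
    rw [Real.rpow_def_of_pos (by norm_num)]
    congr 1
    ring
  rw [h2]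
  have h3 : (n : ℝ) / (2 * r) + E ≤ ((n / r : ℕ) : ℝ) := by
    have h4 : (n : ℝ) / r - 1 < ((n / r : ℕ) : ℝ) := by
      have h5 := Nat.lt_floor_add_one ((n : ℝ) / r)
      have h6 : ⌊(n : ℝ) / r⌋₊ = n / r := Nat.floor_div_eq_div n r
      rw [h6] at h5
      linarith
    have h7 : ((2 * r * (E + 1) : ℕ) : ℝ) ≤ n := by exact_mod_cast hn
    push_cast at h7
    have h8 : ((E : ℝ) + 1) ≤ (n : ℝ) / (2 * r) := by
      rw [le_div_iff₀ (by positivity)]
      linarith
    have h9 : (n : ℝ) / r = 2 * ((n : ℝ) / (2 * r)) := by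
      field_simp
    rw [h9] at h4
    linarith
  have h4 : (2 : ℝ) ^ ((n : ℝ) / (2 * r)) * (2 : ℝ) ^ E ≤ (2 : ℝ) ^ (n / r) := by
    rw [← Real.rpow_natCast 2 E, ← Real.rpow_add (by norm_num), ← Real.rpow_natCast 2 (n / r)]
    exact Real.rpow_le_rpow_of_exponent_le (by norm_num) h3
  have h5 : (0 : ℝ) < (2 : ℝ) ^ E := by positivity
  have h6 := h4.trans h1
  rw [mul_comm] at h6
  exact le_of_mul_le_mul_left h6 h5

end Pool.Agent.Lib.MP_02170e_nt.DA
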