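import Pool.Agent.Lib.MP_02170e_nt.Defs58

/-!
Row UP and basic lemmas on the Frobenius map.
-/

set_option autoImplicit false

open Polynomial

namespace Pool.Agent.Lib.MP_02170e_nt.DA

section

variable {F : Type} [Field F] [Finite F]

/-- Elements of the closure are fixed by a power of the Frobenius map. -/
lemma frob_fix (x : AlgebraicClosure F) : x ^ (Nat.card F ^ (minpoly F x).natDegree) = x := by
  have hint : IsIntegral F x := Algebra.IsIntegral.isIntegral x
  have := IntermediateField.adjoin.finiteDimensional hint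
  have hfin : Finite (IntermediateField.adjoin F {x}) := Module.finite_of_finite F
  have := Fintype.ofFinite (IntermediateField.adjoin F {x})
  have hcard : Fintype.card (IntermediateField.adjoin F {x}) =
      Nat.card F ^ (minpoly F x).natDegree := by
    rw [← Nat.card_eq_fintype_card, Module.natCard_eq_pow_finrank (K := F),
      IntermediateField.adjoin.finrank hint]
  have h := FiniteField.pow_card
    (⟨x, IntermediateField.mem_adjoin_simple_self F x⟩ : IntermediateField.adjoin F {x})
  rw [hcard] at h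
  exact congrArg Subtype.val h

omit [Finite F] in
lemma fix_mul {x : AlgebraicClosure F} {q a : ℕ} (h : x ^ (q ^ a) = x) (b : ℕ) :
    x ^ (q ^ (a * b)) = x := by
  induction b with
  | zero => simp
  | succ b ih => rw [mul_add, mul_one, pow_add, pow_mul, ih, h]

omit [Finite F] in
lemma fix_dvd {x : AlgebraicClosure F} {q a b : ℕ} (h : x ^ (q ^ a) = x) (hab : a ∣ b) :
    x ^ (q ^ b) = x := by
  obtain ⟨c, rfl⟩ := hab
  exact fix_mul h c

/-- The Frobenius map as a ring homomorphism. -/
lemma exists_frob (E : ℕ) : ∃ φ : (AlgebraicClosure F) →+* (AlgebraicClosure F),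
    ∀ x, φ x = x ^ (Nat.card F ^ E) := by
  have := Fintype.ofFinite F
  obtain ⟨p, hp⟩ := CharP.exists F
  obtain ⟨n, hpp, hn⟩ := FiniteField.card F p
  have : Fact p.Prime := ⟨hpp⟩
  have : CharP (AlgebraicClosure F) p :=
    charP_of_injective_algebraMap (algebraMap F (AlgebraicClosure F)).injective p
  refine ⟨iterateFrobenius (AlgebraicClosure F) p (n * E), fun x => ?_⟩
  rw [iterateFrobenius_def, Nat.card_eq_fintype_card, hn, ← pow_mul]

lemma eval_frob {E : ℕ} {B : (AlgebraicClosure F)[X]}
    (hB : ∀ i, (B.coeff i) ^ (Nat.card F ^ E) = B.coeff i) (x : AlgebraicClosure F) :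
    (B.eval x) ^ (Nat.card F ^ E) = B.eval (x ^ (Nat.card F ^ E)) := by
  obtain ⟨φ, hφ⟩ := exists_frob (F := F) E
  rw [← hφ, ← hφ]
  have h1 : B.map φ = B := by
    ext i
    rw [coeff_map, hφ, hB]
  calc φ (B.eval x) = (B.map φ).eval (φ x) := by
        rw [eval_map, eval₂_at_apply]
    _ = B.eval (φ x) := by rw [h1]

lemma fix_eval {E : ℕ} {B : (AlgebraicClosure F)[X]}
    (hB : ∀ i, (B.coeff i) ^ (Nat.card F ^ E) = B.coeff i) {x : AlgebraicClosure F}
    (hx : x ^ (Nat.card F ^ E) = x) :
    (B.eval x) ^ (Nat.card F ^ E) = B.eval x := by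
  rw [eval_frob hB, hx]

lemma exists_fix (B : (AlgebraicClosure F)[X]) :
    ∃ m, 0 < m ∧ ∀ i, (B.coeff i) ^ (Nat.card F ^ m) = B.coeff i := by
  refine ⟨∏ i ∈ B.support, (minpoly F (B.coeff i)).natDegree, ?_, fun i => ?_⟩
  · exact Finset.prod_pos fun i _ => minpoly.natDegree_pos (Algebra.IsIntegral.isIntegral _)
  · by_cases hi : i ∈ B.support
    · exact fix_dvd (frob_fix _) (Finset.dvd_prod_of_mem _ hi)
    · rw [notMem_support_iff.mp hi, zero_pow]
      exact pow_ne_zero _ Nat.card_pos.ne'

lemma exists_fix_set (S : Set (AlgebraicClosure F)) (hS : S.Finite) :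
    ∃ m, 0 < m ∧ ∀ x ∈ S, x ^ (Nat.card F ^ m) = x := by
  refine ⟨∏ x ∈ hS.toFinset, (minpoly F x).natDegree,
    Finset.prod_pos fun x _ => minpoly.natDegree_pos (Algebra.IsIntegral.isIntegral _),
    fun x hx => ?_⟩
  exact fix_dvd (frob_fix _) (Finset.dvd_prod_of_mem _ (hS.mem_toFinset.mpr hx))

omit [Finite F] in
lemma fibre_finite {π : (AlgebraicClosure F)[X]} (hπ : 0 < π.natDegree)
    {S : Set (AlgebraicClosure F)} (hS : S.Finite) : {x | π.eval x ∈ S}.Finite := by
  classical
  refine (hS.biUnion (t := fun y => (π - C y).roots.toFinset)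
    (fun y _ => Finset.finite_toSet _)).subset ?_
  intro x hx
  rw [Set.mem_iUnion₂]
  refine ⟨π.eval x, hx, ?_⟩
  have h0 : π - C (π.eval x) ≠ 0 := by
    intro h
    have h1 : (π - C (π.eval x)).natDegree = π.natDegree := natDegree_sub_C
    rw [h, natDegree_zero] at h1
    omega
  rw [Finset.mem_coe, Multiset.mem_toFinset, mem_roots h0, IsRoot, eval_sub, eval_C, sub_self]

omit [Finite F] in
lemma fibre_card {π : (AlgebraicClosure F)[X]} (hπ : 0 < π.natDegree)
    (y : AlgebraicClosure F) : {x | π.eval x = y}.ncard ≤ π.natDegree := by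
  classical
  have h0 : π - C y ≠ 0 := by
    intro h
    have h1 : (π - C y).natDegree = π.natDegree := natDegree_sub_C
    rw [h, natDegree_zero] at h1
    omega
  have h1 : {x | π.eval x = y} = ((π - C y).roots.toFinset : Set (AlgebraicClosure F)) := by
    ext x
    rw [Finset.mem_coe, Multiset.mem_toFinset, mem_roots h0, IsRoot, eval_sub, eval_C, sub_eq_zero]
    rfl
  rw [h1, Set.ncard_coe_finset]
  calc (π - C y).roots.toFinset.card ≤ Multiset.card (π - C y).roots :=
        Multiset.toFinset_card_le _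
    _ ≤ (π - C y).natDegree := card_roots' _
    _ = π.natDegree := natDegree_sub_C

omit [Finite F] in
lemma poly_surj {π : (AlgebraicClosure F)[X]} (hπ : 0 < π.natDegree) (y : AlgebraicClosure F) :
    ∃ x, π.eval x = y := by
  obtain ⟨x, hx⟩ := IsAlgClosed.exists_root (π - C y) (by
    rw [degree_sub_C (natDegree_pos_iff_degree_pos.mp hπ)]
    exact (natDegree_pos_iff_degree_pos.mp hπ).ne')
  exact ⟨x, by simpa [IsRoot, sub_eq_zero] using hx⟩

omit [Finite F] in
lemma aeval_iter (R : F[X]) (n : ℕ) (x : AlgebraicClosure F) :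
    aeval x (R.comp^[n] X) = (fun y => aeval y R)^[n] x := by
  induction n with
  | zero => simp
  | succ n ih => rw [Function.iterate_succ_apply', Function.iterate_succ_apply', aeval_comp, ih]

omit [Finite F] in
lemma T_finite (R : F[X]) (hR : 0 < R.natDegree) (α : AlgebraicClosure F) (n : ℕ) :
    (T R α n).Finite := by
  have hdeg : 0 < ((R.comp^[n] X).map (algebraMap F (AlgebraicClosure F))).natDegree := by
    rw [natDegree_map, natDegree_iterate_comp, natDegree_X, mul_one]
    exact pow_pos hR n
  refine (fibre_finite hdeg (Set.finite_singleton α)).subset fun x hx => ?_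
  rw [Set.mem_ofPred_eq, eval_map_algebraMap]
  exact hx

omit [Finite F] in
lemma T_nonempty (R : F[X]) (hR : 0 < R.natDegree) (α : AlgebraicClosure F) (n : ℕ) :
    (T R α n).Nonempty := by
  have hdeg : 0 < ((R.comp^[n] X).map (algebraMap F (AlgebraicClosure F))).natDegree := by
    rw [natDegree_map, natDegree_iterate_comp, natDegree_X, mul_one]
    exact pow_pos hR n
  obtain ⟨x, hx⟩ := poly_surj hdeg α
  rw [eval_map_algebraMap] at hx
  exact ⟨x, hx⟩

omit [Finite F] in
/-- The iterates of the semiconjugacy. -/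
lemma semi_iter {R : F[X]} {r : ℕ} {π L : (AlgebraicClosure F)[X]} (h : SemiA R r π L)
    (k : ℕ) (x : AlgebraicClosure F) :
    (fun y => aeval y R)^[r * k] (π.eval x) = π.eval ((fun z => L.eval z)^[k] x) := by
  have h1 : Function.Semiconj (fun x => π.eval x) (fun z => L.eval z)
      ((fun y : AlgebraicClosure F => aeval y R)^[r]) := by
    intro x
    have h2 := congrArg (eval x) h.2.2.2
    rw [eval_comp, eval_comp, eval_map_algebraMap, aeval_iter] at h2
    exact h2.symm
  have h3 := h1.iterate_right k x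
  rw [← Function.iterate_mul] at h3
  exact h3.symm

omit [Finite F] in
lemma L_pos {R : F[X]} {r : ℕ} {π L : (AlgebraicClosure F)[X]} (h : SemiA R r π L)
    (hR : 0 < R.natDegree) : 0 < L.natDegree := by
  have h1 := congrArg natDegree h.2.2.2
  rw [natDegree_comp, natDegree_comp, natDegree_map, natDegree_iterate_comp, natDegree_X,
    mul_one] at h1
  have h2 : 0 < R.natDegree ^ r * π.natDegree := Nat.mul_pos (pow_pos hR _) h.2.1
  rw [h1] at h2
  refine Nat.pos_of_ne_zero fun h0 => ?_
  rw [h0, mul_zero] at h2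
  exact lt_irrefl _ h2

theorem up58 : StUp := by
  classical
  intro F _ _ R f r π L hS hR hf
  have hLp := L_pos hS hR
  have hr := hS.1
  have hπ := hS.2.1
  have hAff := hS.2.2.1
  -- the finite set
  set S : Set (AlgebraicClosure F) := ⋃ j ∈ Finset.range r,
    ⋃ β ∈ {β : AlgebraicClosure F | aeval β f = 0}, T R β j with hSdef
  have hroots : {β : AlgebraicClosure F | aeval β f = 0}.Finite := by
    refine ((f.aroots (AlgebraicClosure F)).toFinset.finite_toSet).subset fun β hβ => ?_
    rw [Finset.mem_coe, Multiset.mem_toFinset, mem_aroots]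
    exact ⟨hf, hβ⟩
  have hSf : S.Finite := Set.Finite.biUnion (Finset.finite_toSet _) fun j _ =>
    Set.Finite.biUnion hroots fun β _ => T_finite R hR β j
  obtain ⟨m1, hm1, h1⟩ := exists_fix_set _ (fibre_finite hπ hSf)
  obtain ⟨m2, hm2, h2⟩ := exists_fix_set _ (fibre_finite hLp (Set.finite_singleton (L.eval 0)))
  obtain ⟨m3, hm3, h3⟩ := exists_fix L
  obtain ⟨m4, hm4, h4⟩ := exists_fix π
  set E := m1 * m2 * m3 * m4 with hE
  have hEpos : 0 < E := by positivity
  have d1 : m1 ∣ E := ⟨m2 * m3 * m4, by rw [hE]; ring⟩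
  have d2 : m2 ∣ E := ⟨m1 * m3 * m4, by rw [hE]; ring⟩
  have d3 : m3 ∣ E := ⟨m1 * m2 * m4, by rw [hE]; ring⟩
  have d4 : m4 ∣ E := ⟨m1 * m2 * m3, by rw [hE]; ring⟩
  obtain ⟨φ, hφ⟩ := exists_frob (F := F) E
  -- the characteristic
  obtain ⟨p, hp⟩ := CharP.exists F
  have := Fintype.ofFinite F
  obtain ⟨-, hpp, -⟩ := FiniteField.card F p
  have : Fact p.Prime := ⟨hpp⟩
  have : CharP (AlgebraicClosure F) p :=
    charP_of_injective_algebraMap (algebraMap F (AlgebraicClosure F)).injective p
  let _ : Algebra (ZMod p) (AlgebraicClosure F) := ZMod.algebra _ p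
  -- the two endomorphisms
  set g : AlgebraicClosure F → AlgebraicClosure F := fun z => L.eval z with hg
  let lam0 : AlgebraicClosure F →+ AlgebraicClosure F :=
    { toFun := fun x => L.eval x - L.eval 0
      map_zero' := sub_self _
      map_add' := fun x y => by
        have := hAff x y
        linear_combination this }
  let lam : Module.End (ZMod p) (AlgebraicClosure F) := lam0.toZModLinearMap p
  let phi : Module.End (ZMod p) (AlgebraicClosure F) :=
    (φ : AlgebraicClosure F →+ AlgebraicClosure F).toZModLinearMap p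
  have hlam : ∀ x, lam x = L.eval x - L.eval 0 := fun x => rfl
  have hphi : ∀ x, phi x = x ^ (Nat.card F ^ E) := fun x => hφ x
  have h0fix : (0 : AlgebraicClosure F) ^ (Nat.card F ^ E) = 0 :=
    zero_pow (pow_ne_zero _ Nat.card_pos.ne')
  have hLfix : ∀ i, (L.coeff i) ^ (Nat.card F ^ E) = L.coeff i := fun i => fix_dvd (h3 i) d3
  have hcomm : ∀ x, phi (lam x) = lam (phi x) := by
    intro x
    have e1 : phi (L.eval x - L.eval 0) = phi (L.eval x) - phi (L.eval 0) := map_sub _ _ _
    rw [hlam, hlam, e1, hphi, hphi, hphi, eval_frob hLfix, eval_frob hLfix, h0fix]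
  have hker : ∀ v, lam v = 0 → phi v = v := by
    intro v hv
    rw [hphi]
    exact fix_dvd (h2 v (by
      rw [hlam, sub_eq_zero] at hv
      exact hv)) d2
  have hnil : ∀ k v, (lam ^ k) v = 0 → ((phi - 1) ^ k) v = 0 := by
    intro k
    induction k with
    | zero => intro v hv; simpa using hv
    | succ k ih =>
      intro v hv
      have hc : Commute lam (phi - 1) := by
        refine LinearMap.ext fun x => ?_
        simp only [Module.End.mul_apply, LinearMap.sub_apply, Module.End.one_apply, map_sub,
          hcomm]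
      rw [pow_succ, Module.End.mul_apply]
      apply ih
      rw [← Module.End.mul_apply, (hc.pow_left k).eq, Module.End.mul_apply,
        LinearMap.sub_apply, Module.End.one_apply, sub_eq_zero]
      apply hker
      rw [← Module.End.mul_apply, ← pow_succ']
      exact hv
  have hcharE : CharP (Module.End (ZMod p) (AlgebraicClosure F)) p :=
    charP_of_injective_algebraMap
      (algebraMap (ZMod p) (Module.End (ZMod p) (AlgebraicClosure F))).injective p
  have hphipow : ∀ (m : ℕ) (x : AlgebraicClosure F),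
      (phi ^ m) x = x ^ (Nat.card F ^ (E * m)) := by
    intro m
    induction m with
    | zero => intro x; simp
    | succ m ih =>
      intro x
      rw [pow_succ, Module.End.mul_apply, ih, hphi, ← pow_mul, ← pow_add]
      congr 2
      ring
  have hsplit : ∀ k a b, g^[k] (a + b) = g^[k] a + (lam ^ k) b := by
    intro k
    induction k with
    | zero => intro a b; simp
    | succ k ih =>
      intro a b
      rw [Function.iterate_succ_apply, Function.iterate_succ_apply]
      have e2 : g (a + b) = g a + lam b := by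
        rw [hlam]
        have := hAff a b
        simp only [hg]
        linear_combination this
      rw [e2, ih, pow_succ, Module.End.mul_apply]
  refine ⟨E * p, fun n β hβ y hy => ?_⟩
  -- the decomposition of n
  set k := n / r with hk
  set j := n % r with hj
  have hnk : n = j + r * k := by rw [hk, hj, add_comm]; exact (Nat.div_add_mod n r).symm
  obtain ⟨x, hx⟩ := poly_surj hπ y
  have hmem : (g^[k] x) ∈ {x | π.eval x ∈ S} := by
    have e3 := semi_iter hS k x
    rw [hx] at e3
    show π.eval (g^[k] x) ∈ S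
    rw [hg, ← e3, hSdef, Set.mem_iUnion₂]
    refine ⟨j, Finset.mem_range.mpr (Nat.mod_lt _ hr), ?_⟩
    rw [Set.mem_iUnion₂]
    refine ⟨β, hβ, ?_⟩
    rw [T, Set.mem_ofPred_eq, aeval_iter, ← Function.iterate_add_apply, ← hnk, ← aeval_iter]
    exact hy
  have hsfix : (g^[k] x) ^ (Nat.card F ^ E) = g^[k] x := fix_dvd (h1 _ hmem) d1
  have hgphi : ∀ k x, (g^[k] x) ^ (Nat.card F ^ E) = g^[k] (x ^ (Nat.card F ^ E)) := by
    intro k
    induction k with
    | zero => intro x; rfl
    | succ k ih =>
      intro x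
      rw [Function.iterate_succ_apply, Function.iterate_succ_apply, ih]
      congr 1
      exact eval_frob hLfix x
  have hz : (lam ^ k) (phi x - x) = 0 := by
    have e4 := hsplit k x (phi x - x)
    rw [add_sub_cancel, hphi, ← hgphi, hsfix] at e4
    rw [hphi]
    simpa using e4
  have hz2 : ((phi - 1) ^ (k + 1)) x = 0 := by
    rw [pow_succ, Module.End.mul_apply, LinearMap.sub_apply, Module.End.one_apply]
    exact hnil k _ hz
  set t := Nat.clog p (k + 1) with ht
  have ht1 : k + 1 ≤ p ^ t := Nat.le_pow_clog hpp.one_lt _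
  have ht2 : p ^ t ≤ p * (k + 1) := by
    rcases Nat.eq_zero_or_pos t with h | h
    · rw [h, pow_zero]
      exact Nat.succ_le_of_lt (Nat.mul_pos hpp.pos (Nat.succ_pos _))
    · obtain ⟨t', ht'⟩ : ∃ t', t = t' + 1 := ⟨t - 1, by omega⟩
      have h5 : p ^ t' < k + 1 := by
        by_contra hcon
        push Not at hcon
        have := (Nat.clog_le_iff_le_pow hpp.one_lt).mpr hcon
        omega
      rw [ht', pow_succ, mul_comm]
      exact Nat.mul_le_mul_left _ h5.le
  have hfix : (phi ^ (p ^ t)) x = x := by
    have e5 : ((phi - 1) ^ (p ^ t)) x = 0 := by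
      obtain ⟨m, hm⟩ := Nat.exists_eq_add_of_le ht1
      rw [hm, add_comm, pow_add, Module.End.mul_apply, hz2, map_zero]
    rw [sub_pow_char_pow_of_commute _ _ (Commute.one_right _), one_pow, LinearMap.sub_apply,
      Module.End.one_apply, sub_eq_zero] at e5
    exact e5
  refine ⟨E * p ^ t, Nat.mul_pos hEpos (pow_pos hpp.pos _), ?_, ?_⟩
  · calc E * p ^ t ≤ E * (p * (k + 1)) := Nat.mul_le_mul_left _ ht2
      _ = E * p * (k + 1) := by ring
      _ ≤ E * p * (n + 1) := Nat.mul_le_mul_left _ (Nat.succ_le_succ (Nat.div_le_self _ _))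
  · rw [hphipow] at hfix
    rw [← hx]
    exact fix_eval (fun i => fix_dvd (h4 i) (d4.mul_right _)) hfix

end

end Pool.Agent.Lib.MP_02170e_nt.DA

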